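import Pool.Agent.Q169.CZ.Quad

set_option autoImplicit false
open Complex Metric Filter Topology Polynomial

namespace Pool.Agent.Q169.CZ

variable {H : Type*} [NormedAddCommGroup H] [InnerProductSpace ℂ H]

theorem intertwine {K : Type*} [NormedAddCommGroup K] [InnerProductSpace ℂ K]
    (T : H →L[ℂ] H) (S : K →L[ℂ] K) (ι : K →ₗ[ℂ] H) (h : ∀ w, T (ι w) = ι (S w)) (g : ℂ[X])
    (w : K) : aeval T g (ι w) = ι (aeval S g w) := by
  induction g using Polynomial.induction_on' generalizing w with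
  | add p q hp hq =>
    rw [map_add, map_add, _root_.add_apply, _root_.add_apply, hp, hq,
      map_add]
  | monomial n a =>
    rw [aeval_monomial, aeval_monomial]
    have hn : ∀ n : ℕ, ∀ w : K, (T ^ n) (ι w) = ι ((S ^ n) w) := by
      intro n
      induction n with
      | zero => intro w; simp
      | succ n ih =>
        intro w
        rw [pow_succ, pow_succ]
        show (T ^ n) (T (ι w)) = ι ((S ^ n) (S w))
        rw [h, ih]
    rw [Algebra.algebraMap_eq_smul_one, Algebra.algebraMap_eq_smul_one]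
    simp only [smul_mul_assoc, one_mul, _root_.smul_apply]
    rw [hn, map_smul]

theorem aeval_eigen (T : H →L[ℂ] H) {f : H} {l : ℂ} (h : T f = l • f) (g : ℂ[X]) :
    aeval T g f = (g.eval l) • f := by
  induction g using Polynomial.induction_on' with
  | add p q hp hq =>
    rw [map_add, _root_.add_apply, hp, hq, eval_add, add_smul]
  | monomial n a =>
    rw [aeval_monomial]
    have hn : ∀ n : ℕ, (T ^ n) f = (l ^ n) • f := by
      intro n
      induction n with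
      | zero => simp
      | succ n ih =>
        rw [pow_succ]
        show (T ^ n) (T f) = _
        rw [h, map_smul, ih, smul_smul]
        congr 1; ring
    rw [Algebra.algebraMap_eq_smul_one]
    simp only [smul_mul_assoc, one_mul, _root_.smul_apply]
    rw [hn, smul_smul, eval_monomial]

theorem eigen_bound [FiniteDimensional ℂ H] (h2 : 2 ≤ Module.finrank ℂ H) (T : H →L[ℂ] H) {q : ℂ}
    (hq0 : q ≠ 0) (hq1 : ‖q‖ ≤ 1) (p : ℂ[X]) (M : ℝ) (hM : ∀ w ∈ Om T q, ‖p.eval w‖ ≤ M)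
    {f : H} (hf : f ≠ 0) {l : ℂ} (h : T f = l • f) : ‖p.eval l‖ ≤ M := by
  have hn : ‖f‖ ≠ 0 := norm_ne_zero_iff.mpr hf
  set x : H := ((‖f‖⁻¹ : ℝ) : ℂ) • f with hx
  have hx1 : ‖x‖ = 1 := by
    rw [hx, norm_smul, Complex.norm_real, norm_inv, norm_norm, inv_mul_cancel₀ hn]
  have hTx : T x = l • x := by rw [hx, map_smul, h, smul_comm]
  have hin : inner ℂ x (T x) = l := by
    rw [hTx, inner_smul_right, inner_self_real, hx1]; simp
  apply disc_bound h2 T hq0 hq1 p M hM hx1 l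
  rw [hin, sub_self, norm_zero]
  positivity

/-- The off-diagonal two by two model operator. -/
noncomputable def Tm (u v : ℝ) : EuclideanSpace ℂ (Fin 2) →L[ℂ] EuclideanSpace ℂ (Fin 2) :=
  Matrix.toEuclideanCLM (n := Fin 2) (𝕜 := ℂ) !![0, (u : ℂ); (v : ℂ), 0]

theorem Tm_zero (u v : ℝ) (w : EuclideanSpace ℂ (Fin 2)) : Tm u v w 0 = u * w 1 := by
  simp [Tm, Matrix.ofLp_toEuclideanCLM, Matrix.mulVec, dotProduct, Fin.sum_univ_two]

theorem Tm_one (u v : ℝ) (w : EuclideanSpace ℂ (Fin 2)) : Tm u v w 1 = v * w 0 := by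
  simp [Tm, Matrix.ofLp_toEuclideanCLM, Matrix.mulVec, dotProduct, Fin.sum_univ_two]

theorem norm_sq_two (w : EuclideanSpace ℂ (Fin 2)) : ‖w‖ ^ 2 = ‖w 0‖ ^ 2 + ‖w 1‖ ^ 2 := by
  rw [EuclideanSpace.norm_sq_eq, Fin.sum_univ_two]

theorem Tm_norm {u v R : ℝ} (hu : |u| ≤ R) (hv : |v| ≤ R) : ‖Tm u v‖ ≤ R := by
  have hR : 0 ≤ R := (abs_nonneg u).trans hu
  apply ContinuousLinearMap.opNorm_le_bound _ hR
  intro w
  apply le_of_sq_le_sq _ (by positivity)
  rw [mul_pow, norm_sq_two, norm_sq_two w, Tm_zero, Tm_one, norm_mul, norm_mul, Complex.norm_real,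
    Complex.norm_real, Real.norm_eq_abs, Real.norm_eq_abs, mul_pow, mul_pow]
  have h1 : |u| ^ 2 ≤ R ^ 2 := by gcongr
  have h2 : |v| ^ 2 ≤ R ^ 2 := by gcongr
  nlinarith [sq_nonneg ‖w 0‖, sq_nonneg ‖w 1‖]

theorem Tm_sq (u v : ℝ) : Tm u v * Tm u v = ((u * v : ℝ) : ℂ) • (1 : _ →L[ℂ] _) := by
  ext w i
  fin_cases i
  · show Tm u v (Tm u v w) 0 = _
    rw [Tm_zero, Tm_one]
    simp; ring
  · show Tm u v (Tm u v w) 1 = _
    rw [Tm_one, Tm_zero]
    simp; ring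

/-- similarity by a diagonal matrix -/
theorem Tm_similar (u v K : ℝ) (hK : 1 ≤ K) (P : ℂ[X]) :
    ‖aeval (Tm u v) P‖ ≤ K * ‖aeval (Tm (u * K) (v / K)) P‖ := by
  have hK0 : (0 : ℝ) < K := by linarith
  have hKc : (K : ℂ) ≠ 0 := by exact_mod_cast hK0.ne'
  let ι : EuclideanSpace ℂ (Fin 2) →ₗ[ℂ] EuclideanSpace ℂ (Fin 2) :=
    { toFun := fun w => !₂[w 0, (K : ℂ) * w 1]
      map_add' := by
        intro x y; ext i; fin_cases i <;> simp [mul_add]
      map_smul' := by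
        intro c x; ext i; fin_cases i
        · simp
        · simp; ring }
  have hι0 : ∀ w, ι w 0 = w 0 := fun w => rfl
  have hι1 : ∀ w, ι w 1 = (K : ℂ) * w 1 := fun w => rfl
  have hint : ∀ w, Tm u v (ι w) = ι (Tm (u * K) (v / K) w) := by
    intro w
    ext i
    fin_cases i
    · show Tm u v (ι w) 0 = ι (Tm (u * K) (v / K) w) 0
      rw [Tm_zero, hι0, hι1, Tm_zero]; push_cast; ring
    · show Tm u v (ι w) 1 = ι (Tm (u * K) (v / K) w) 1
      rw [Tm_one, hι1, hι0, Tm_one]; push_cast; field_simp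
  apply ContinuousLinearMap.opNorm_le_bound _ (by positivity)
  intro w
  set w' : EuclideanSpace ℂ (Fin 2) := !₂[w 0, w 1 / (K : ℂ)] with hw'
  have hw0 : w' 0 = w 0 := rfl
  have hw1 : w' 1 = w 1 / (K : ℂ) := rfl
  have hww : ι w' = w := by
    ext i; fin_cases i
    · exact hw0
    · show ι w' 1 = w 1
      rw [hι1, hw1]; field_simp
  have hn1 : ‖w'‖ ≤ ‖w‖ := by
    apply le_of_sq_le_sq _ (norm_nonneg _)
    rw [norm_sq_two, norm_sq_two, hw0, hw1, norm_div, Complex.norm_real,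
      Real.norm_of_nonneg hK0.le]
    have : ‖w 1‖ / K ≤ ‖w 1‖ := div_le_self (norm_nonneg _) hK
    gcongr
  have hn2 : ∀ x, ‖ι x‖ ≤ K * ‖x‖ := by
    intro x
    apply le_of_sq_le_sq _ (by positivity)
    rw [mul_pow, norm_sq_two, norm_sq_two, hι0, hι1, norm_mul, Complex.norm_real,
      Real.norm_of_nonneg hK0.le, mul_pow]
    have : 1 ≤ K ^ 2 := by nlinarith
    nlinarith [sq_nonneg ‖x 0‖]
  calc ‖aeval (Tm u v) P w‖ = ‖ι (aeval (Tm (u * K) (v / K)) P w')‖ := by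
        rw [← intertwine _ _ ι hint, hww]
    _ ≤ K * ‖aeval (Tm (u * K) (v / K)) P w'‖ := hn2 _
    _ ≤ K * (‖aeval (Tm (u * K) (v / K)) P‖ * ‖w'‖) := by
        gcongr; exact ContinuousLinearMap.le_opNorm _ _
    _ ≤ K * (‖aeval (Tm (u * K) (v / K)) P‖ * ‖w‖) := by gcongr
    _ = _ := by ring

/-- the symmetric model -/
theorem Tm_symm (r : ℝ) (P : ℂ[X]) (M : ℝ) (h1 : ‖P.eval (r : ℂ)‖ ≤ M)
    (h2 : ‖P.eval (-(r : ℂ))‖ ≤ M) : ‖aeval (Tm r r) P‖ ≤ M := by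
  have hM : 0 ≤ M := (norm_nonneg _).trans h1
  apply ContinuousLinearMap.opNorm_le_bound _ hM
  intro w
  set f : EuclideanSpace ℂ (Fin 2) := !₂[1, 1] with hf
  set g : EuclideanSpace ℂ (Fin 2) := !₂[1, -1] with hg
  have hf1 : Tm r r f = (r : ℂ) • f := by
    ext i; fin_cases i
    · show Tm r r f 0 = _
      rw [Tm_zero]; simp [hf]
    · show Tm r r f 1 = _
      rw [Tm_one]; simp [hf]
  have hg1 : Tm r r g = (-(r : ℂ)) • g := by
    ext i; fin_cases i
    · show Tm r r g 0 = _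
      rw [Tm_zero]; simp [hg]
    · show Tm r r g 1 = _
      rw [Tm_one]; simp [hg]
  have hw : w = ((w 0 + w 1) / 2) • f + ((w 0 - w 1) / 2) • g := by
    ext i; fin_cases i
    · simp [hf, hg]; ring
    · simp [hf, hg]; ring
  set a := P.eval (r : ℂ)
  set b := P.eval (-(r : ℂ))
  have hval : aeval (Tm r r) P w = ((w 0 + w 1) / 2 * a) • f + ((w 0 - w 1) / 2 * b) • g := by
    conv_lhs => rw [hw]
    rw [map_add, map_smul, map_smul, aeval_eigen _ hf1, aeval_eigen _ hg1, smul_smul, smul_smul]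
  have hpar : ∀ x y : ℂ, ‖x + y‖ ^ 2 + ‖x - y‖ ^ 2 = 2 * (‖x‖ ^ 2 + ‖y‖ ^ 2) := by
    intro x y
    have := parallelogram_law_with_norm ℝ x y
    nlinarith [this]
  apply le_of_sq_le_sq _ (by positivity)
  rw [hval, mul_pow, norm_sq_two, norm_sq_two w]
  have e0 : (((w 0 + w 1) / 2 * a) • f + ((w 0 - w 1) / 2 * b) • g : EuclideanSpace ℂ (Fin 2)) 0 =
      (w 0 + w 1) / 2 * a + (w 0 - w 1) / 2 * b := by simp [hf, hg]
  have e1 : (((w 0 + w 1) / 2 * a) • f + ((w 0 - w 1) / 2 * b) • g : EuclideanSpace ℂ (Fin 2)) 1 =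
      (w 0 + w 1) / 2 * a - (w 0 - w 1) / 2 * b := by simp [hf, hg]; ring
  rw [e0, e1, hpar, norm_mul, norm_mul, norm_div, norm_div, mul_pow, mul_pow, div_pow, div_pow]
  have h3 := hpar (w 0) (w 1)
  have h4 : ‖(2 : ℂ)‖ = 2 := by simp
  rw [h4]
  have h5 : ‖a‖ ^ 2 ≤ M ^ 2 := by gcongr
  have h6 : ‖b‖ ^ 2 ≤ M ^ 2 := by gcongr
  have h7 : 0 ≤ ‖w 0 + w 1‖ ^ 2 := sq_nonneg _
  have h8 : 0 ≤ ‖w 0 - w 1‖ ^ 2 := sq_nonneg _
  nlinarith [mul_le_mul_of_nonneg_left h5 h7, mul_le_mul_of_nonneg_left h6 h8]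

end Pool.Agent.Q169.CZ
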