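import Pool.Agent.Q169.CZ.Small
import Pool.Agent.W753.CZ.Crouzeix

set_option autoImplicit false
open Complex Metric Filter Topology Polynomial

namespace Pool.Agent.Q169.CZ

variable {H : Type*} [NormedAddCommGroup H] [InnerProductSpace ℂ H]

/-- The scaling operator with factor `s` on `x`, `r` on `y` and `1` on the complement. -/
noncomputable def Sc (x y : H) (s r : ℝ) : H →L[ℂ] H :=
  1 + ((s - 1 : ℝ) : ℂ) • (innerSL ℂ x).smulRight x + ((r - 1 : ℝ) : ℂ) • (innerSL ℂ y).smulRight y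

theorem Sc_apply (x y : H) (s r : ℝ) (h : H) :
    Sc x y s r h = h + ((s - 1 : ℝ) : ℂ) • (inner ℂ x h • x) + ((r - 1 : ℝ) : ℂ) • (inner ℂ y h • y) :=
  rfl

section
variable {x y : H} (hx : ‖x‖ = 1) (hy : ‖y‖ = 1) (hxy : inner ℂ x y = 0)
include hx hy hxy

theorem Sc_x (s r : ℝ) : Sc x y s r x = (s : ℂ) • x := by
  have h11 : inner ℂ x x = 1 := by rw [inner_self_real, hx]; simp
  have h21 : inner ℂ y x = 0 := by rw [← inner_conj_symm, hxy, map_zero]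
  rw [Sc_apply, h11, h21]
  push_cast
  module

theorem Sc_y (s r : ℝ) : Sc x y s r y = (r : ℂ) • y := by
  have h22 : inner ℂ y y = 1 := by rw [inner_self_real, hy]; simp
  rw [Sc_apply, h22, hxy]
  push_cast
  module

theorem Sc_mul {s r s' r' : ℝ} (hs : s * s' = 1) (hr : r * r' = 1) :
    Sc x y s r * Sc x y s' r' = 1 := by
  ext h
  show Sc x y s r (Sc x y s' r' h) = h
  rw [Sc_apply x y s' r' h, map_add, map_add, map_smul, map_smul, map_smul, map_smul,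
    Sc_x hx hy hxy, Sc_y hx hy hxy, Sc_apply x y s r h]
  have e1 : (s : ℂ) * s' = 1 := by exact_mod_cast hs
  have e2 : (r : ℂ) * r' = 1 := by exact_mod_cast hr
  simp only [smul_smul]
  have h1 : ((s' - 1 : ℝ) : ℂ) * (inner ℂ x h * (s : ℂ)) = (1 - s) * inner ℂ x h := by
    push_cast; linear_combination (inner ℂ x h) * e1
  have h2 : ((r' - 1 : ℝ) : ℂ) * (inner ℂ y h * (r : ℂ)) = (1 - r) * inner ℂ y h := by
    push_cast; linear_combination (inner ℂ y h) * e2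
  rw [h1, h2]
  push_cast
  module

omit hx hy hxy in
theorem Sc_symm (s r : ℝ) (u v : H) : inner ℂ (Sc x y s r u) v = inner ℂ u (Sc x y s r v) := by
  rw [Sc_apply, Sc_apply, inner_add_left, inner_add_left, inner_add_right, inner_add_right]
  simp only [inner_smul_left, inner_smul_right, Complex.conj_ofReal, inner_conj_symm]
  ring

theorem Sc_norm (s r : ℝ) (h : H) :
    ‖Sc x y s r h‖ ^ 2 = ‖h‖ ^ 2 + (s ^ 2 - 1) * ‖inner ℂ x h‖ ^ 2 + (r ^ 2 - 1) * ‖inner ℂ y h‖ ^ 2 := by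
  have h11 : inner ℂ x x = 1 := by rw [inner_self_real, hx]; simp
  have h22 : inner ℂ y y = 1 := by rw [inner_self_real, hy]; simp
  have h21 : inner ℂ y x = 0 := by rw [← inner_conj_symm, hxy, map_zero]
  have hc : ((‖Sc x y s r h‖ ^ 2 : ℝ) : ℂ) = ((‖h‖ ^ 2 + (s ^ 2 - 1) * ‖inner ℂ x h‖ ^ 2 +
      (r ^ 2 - 1) * ‖inner ℂ y h‖ ^ 2 : ℝ) : ℂ) := by
    rw [← inner_self_real, Sc_apply]
    simp only [inner_add_left, inner_add_right, inner_smul_left, inner_smul_right,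
      Complex.conj_ofReal, h11, h22, h21, hxy]
    have e1 : inner ℂ h x * inner ℂ x h = ((‖inner ℂ x h‖ ^ 2 : ℝ) : ℂ) := by
      rw [← inner_conj_symm h x, ← Complex.normSq_eq_norm_sq, mul_comm, Complex.mul_conj]
    have e2 : inner ℂ h y * inner ℂ y h = ((‖inner ℂ y h‖ ^ 2 : ℝ) : ℂ) := by
      rw [← inner_conj_symm h y, ← Complex.normSq_eq_norm_sq, mul_comm, Complex.mul_conj]
    have e3 : inner ℂ h h = ((‖h‖ ^ 2 : ℝ) : ℂ) := inner_self_real h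
    have c1 : (starRingEnd ℂ) (inner ℂ x h) = inner ℂ h x := inner_conj_symm h x
    have c2 : (starRingEnd ℂ) (inner ℂ y h) = inner ℂ h y := inner_conj_symm h y
    rw [c1, c2]
    push_cast at e1 e2 e3 ⊢
    linear_combination e3 + ((s : ℂ) ^ 2 - 1) * e1 + ((r : ℂ) ^ 2 - 1) * e2
  exact_mod_cast hc

theorem bessel (h : H) : ‖inner ℂ x h‖ ^ 2 + ‖inner ℂ y h‖ ^ 2 ≤ ‖h‖ ^ 2 := by
  have := Sc_norm hx hy hxy 0 0 h
  nlinarith [sq_nonneg ‖Sc x y 0 0 h‖]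

end

/-- A vector `h` with two images `X`, `Y`, `⟨X, Y⟩ = 1` and `‖X‖ ‖Y‖ ≤ 1 / |q|`. -/
theorem pair_bound [FiniteDimensional ℂ H] (h2 : 2 ≤ Module.finrank ℂ H) (A : H →L[ℂ] H) {q : ℂ}
    (hq0 : q ≠ 0) (hq1 : ‖q‖ ≤ 1) (p : ℂ[X]) (M : ℝ) (hM : ∀ w ∈ Om A q, ‖p.eval w‖ ≤ M)
    {X Y : H} (hXY : inner ℂ Y X = 1) (hn : ‖X‖ ^ 2 * ‖Y‖ ^ 2 ≤ 1 / ‖q‖ ^ 2) :
    ‖p.eval (inner ℂ Y (A X))‖ ≤ M := by
  have hqn : 0 < ‖q‖ := norm_pos_iff.mpr hq0
  have hX0 : X ≠ 0 := by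
    intro h; rw [h, inner_zero_right] at hXY; exact zero_ne_one hXY
  have hXn : 0 < ‖X‖ := norm_pos_iff.mpr hX0
  have hXc : ((‖X‖ : ℝ) : ℂ) ≠ 0 := by exact_mod_cast hXn.ne'
  set x : H := ((‖X‖⁻¹ : ℝ) : ℂ) • X with hx
  have hx1 : ‖x‖ = 1 := by
    rw [hx, norm_smul, Complex.norm_real, norm_inv, norm_norm, inv_mul_cancel₀ hXn.ne']
  have hXx : X = ((‖X‖ : ℝ) : ℂ) • x := by
    rw [hx, smul_smul]
    have : ((‖X‖ : ℝ) : ℂ) * ((‖X‖⁻¹ : ℝ) : ℂ) = 1 := by push_cast; field_simp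
    rw [this, one_smul]
  have hxx : inner ℂ x x = 1 := by rw [inner_self_real, hx1]; simp
  have hYx : inner ℂ Y x = ((‖X‖⁻¹ : ℝ) : ℂ) := by
    rw [hx, inner_smul_right, hXY, mul_one]
  have hxY : inner ℂ x Y = ((‖X‖⁻¹ : ℝ) : ℂ) := by
    rw [← inner_conj_symm, hYx, Complex.conj_ofReal]
  set z : H := Y - ((‖X‖⁻¹ : ℝ) : ℂ) • x with hz
  have hzx : inner ℂ z x = 0 := by
    rw [hz, inner_sub_left, inner_smul_left, hYx, hxx, Complex.conj_ofReal, mul_one, sub_self]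
  have hYz : Y = ((‖X‖⁻¹ : ℝ) : ℂ) • x + z := by rw [hz]; abel
  have hxz : inner ℂ x z = 0 := by rw [← inner_conj_symm, hzx, map_zero]
  have hYn : ‖Y‖ ^ 2 = (‖X‖⁻¹) ^ 2 + ‖z‖ ^ 2 := by
    conv_lhs => rw [hYz]
    rw [@norm_add_sq ℂ, inner_smul_left, hxz, norm_smul, hx1, Complex.norm_real]
    simp
  set d := A x - inner ℂ x (A x) • x with hd
  have hval : inner ℂ Y (A X) - inner ℂ x (A x) = ((‖X‖ : ℝ) : ℂ) * inner ℂ z d := by
    have e1 : inner ℂ Y (A X) = ((‖X‖ : ℝ) : ℂ) * inner ℂ Y (A x) := by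
      conv_lhs => rw [hXx, map_smul, inner_smul_right]
    have e2 : inner ℂ Y (A x) = ((‖X‖⁻¹ : ℝ) : ℂ) * inner ℂ x (A x) + inner ℂ z (A x) := by
      conv_lhs => rw [hYz]
      rw [inner_add_left, inner_smul_left, Complex.conj_ofReal]
    have e3 : inner ℂ z d = inner ℂ z (A x) := by
      rw [hd, inner_sub_right, inner_smul_right, hzx, mul_zero, sub_zero]
    rw [e1, e2, e3]
    push_cast
    field_simp
    ring
  apply disc_bound h2 A hq0 hq1 p M hM hx1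
  rw [hval, norm_mul, Complex.norm_real, norm_norm]
  have h5 : ‖X‖ * ‖z‖ ≤ Real.sqrt (1 - ‖q‖ ^ 2) / ‖q‖ := by
    rw [le_div_iff₀ hqn]
    apply Real.le_sqrt_of_sq_le
    have h6 : ‖X‖ ^ 2 * ‖Y‖ ^ 2 = 1 + (‖X‖ * ‖z‖) ^ 2 := by
      rw [hYn]; field_simp
    rw [h6] at hn
    rw [mul_pow]
    have h7 : (1 + (‖X‖ * ‖z‖) ^ 2) * ‖q‖ ^ 2 ≤ 1 := by
      rw [le_div_iff₀ (by positivity)] at hn
      exact hn
    linarith
  calc ‖X‖ * ‖inner ℂ z d‖ ≤ ‖X‖ * (‖z‖ * ‖d‖) := by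
        gcongr; exact norm_inner_le_norm _ _
    _ = (‖X‖ * ‖z‖) * ‖d‖ := by ring
    _ ≤ _ := by gcongr

theorem kant (γ a b : ℝ) (ha : 0 ≤ a) (hb : 0 ≤ b) (hab : a + b ≤ 1)
    (hge : 2 ≤ γ + 1 / γ) :
    ((1 : ℝ) ^ 2 + (γ - 1) * a + (1 / γ - 1) * b) * ((1 : ℝ) ^ 2 + (1 / γ - 1) * a + (γ - 1) * b) ≤
      ((γ + 1 / γ) / 2) ^ 2 := by
  generalize 1 / γ = δ at hge ⊢
  set P := (1 : ℝ) ^ 2 + (γ - 1) * a + (δ - 1) * b with hP
  set Q := (1 : ℝ) ^ 2 + (δ - 1) * a + (γ - 1) * b with hQ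
  have hPQ : P + Q = 2 + (γ + δ - 2) * (a + b) := by rw [hP, hQ]; ring
  have h1 : P + Q ≤ γ + δ := by
    rw [hPQ]
    have : (γ + δ - 2) * (a + b) ≤ (γ + δ - 2) * 1 :=
      mul_le_mul_of_nonneg_left hab (by linarith)
    linarith
  have h0 : 0 ≤ P + Q := by
    rw [hPQ]
    have : 0 ≤ (γ + δ - 2) * (a + b) := mul_nonneg (by linarith) (by linarith)
    linarith
  have h2 : (P + Q) ^ 2 ≤ (γ + δ) ^ 2 := by gcongr
  have h3 := sq_nonneg (P - Q)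
  clear_value P Q
  nlinarith

/-- The main estimate, from the similarity with a scaling operator of condition number `γ`. -/
theorem vec_bound [FiniteDimensional ℂ H] (h2 : 2 ≤ Module.finrank ℂ H) (A : H →L[ℂ] H) {q : ℂ}
    (hq0 : q ≠ 0) (hq1 : ‖q‖ ≤ 1) (p : ℂ[X]) (M : ℝ) (hM : ∀ w ∈ Om A q, ‖p.eval w‖ ≤ M)
    {γ : ℝ} (hγ : γ = (1 + Real.sqrt (1 - ‖q‖ ^ 2)) / ‖q‖) {x : H} (hx : ‖x‖ = 1) :
    ‖inner ℂ x (aeval A p x)‖ ^ 2 +
      γ ^ 2 * (‖aeval A p x‖ ^ 2 - ‖inner ℂ x (aeval A p x)‖ ^ 2) ≤ (2 * M) ^ 2 := by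
  have : CompleteSpace H := FiniteDimensional.complete ℂ H
  have hnt : Nontrivial H := by
    apply Module.nontrivial_of_finrank_pos (R := ℂ); omega
  have hqn : 0 < ‖q‖ := norm_pos_iff.mpr hq0
  have hs0 : 0 ≤ Real.sqrt (1 - ‖q‖ ^ 2) := Real.sqrt_nonneg _
  have hs2 : Real.sqrt (1 - ‖q‖ ^ 2) ^ 2 = 1 - ‖q‖ ^ 2 := Real.sq_sqrt (by nlinarith)
  have hγ1 : 1 ≤ γ := by
    rw [hγ, le_div_iff₀ hqn]; linarith
  have hγ0 : 0 < γ := by linarith
  have hγs : γ + 1 / γ = 2 / ‖q‖ := by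
    rw [hγ]
    have : (1 + Real.sqrt (1 - ‖q‖ ^ 2)) ≠ 0 := by positivity
    field_simp
    nlinarith
  set T := aeval A p with hT
  set d := T x - inner ℂ x (T x) • x with hd
  have hxx : inner ℂ x x = 1 := by rw [inner_self_real, hx]; simp
  have hxd : inner ℂ x d = 0 := by
    rw [hd, inner_sub_right, inner_smul_right, hxx]; simp
  obtain ⟨y, hy, hyx, hdy⟩ : ∃ y : H, ‖y‖ = 1 ∧ inner ℂ y x = 0 ∧ d = ((‖d‖ : ℝ) : ℂ) • y := by
    by_cases hd0 : d = 0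
    · obtain ⟨y, hy, hyx⟩ := exists_orth h2 x
      exact ⟨y, hy, hyx, by rw [hd0]; simp⟩
    · have hdn : ‖d‖ ≠ 0 := norm_ne_zero_iff.mpr hd0
      have hdn' : ((‖d‖ : ℝ) : ℂ) ≠ 0 := by exact_mod_cast hdn
      refine ⟨((‖d‖⁻¹ : ℝ) : ℂ) • d, ?_, ?_, ?_⟩
      · rw [norm_smul, Complex.norm_real, norm_inv, norm_norm, inv_mul_cancel₀ hdn]
      · rw [inner_smul_left, ← inner_conj_symm, hxd]; simp
      · rw [smul_smul]
        have : ((‖d‖ : ℝ) : ℂ) * ((‖d‖⁻¹ : ℝ) : ℂ) = 1 := by push_cast; field_simp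
        rw [this, one_smul]
  have hxy : inner ℂ x y = 0 := by rw [← inner_conj_symm, hyx, map_zero]
  have hTx : T x = inner ℂ x (T x) • x + ((‖d‖ : ℝ) : ℂ) • y := by rw [← hdy, hd]; abel
  have hTn : ‖T x‖ ^ 2 = ‖inner ℂ x (T x)‖ ^ 2 + ‖d‖ ^ 2 := by
    conv_lhs => rw [hTx]
    rw [@norm_add_sq ℂ, inner_smul_left, inner_smul_right, hxy, norm_smul, norm_smul, hx, hy,
      Complex.norm_real, norm_norm]
    simp
  set σ := Real.sqrt γ with hσ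
  have hσ2 : σ ^ 2 = γ := Real.sq_sqrt hγ0.le
  have hσ0 : 0 < σ := Real.sqrt_pos.mpr hγ0
  have hσσ : σ * σ⁻¹ = 1 := mul_inv_cancel₀ hσ0.ne'
  have hσσ' : σ⁻¹ * σ = 1 := inv_mul_cancel₀ hσ0.ne'
  set S := Sc x y σ σ⁻¹ with hS
  set S' := Sc x y σ⁻¹ σ with hS'
  have hSS' : S * S' = 1 := Sc_mul hx hy hxy hσσ hσσ'
  have hS'S : S' * S = 1 := Sc_mul hx hy hxy hσσ' hσσ
  set B := S' * A * S with hB
  have hBp : ∀ g : ℂ[X], aeval B g = S' * aeval A g * S := by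
    intro g
    induction g using Polynomial.induction_on' with
    | add g1 g2 h1 h2 => rw [map_add, map_add, h1, h2, mul_add, add_mul]
    | monomial n a =>
      rw [aeval_monomial, aeval_monomial]
      have hpow : B ^ n = S' * A ^ n * S := by
        induction n with
        | zero => rw [pow_zero, pow_zero, mul_one, hS'S]
        | succ n ih =>
          rw [pow_succ, ih, hB, pow_succ]
          calc S' * A ^ n * S * (S' * A * S) = S' * A ^ n * (S * S') * A * S := by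
                simp only [mul_assoc]
            _ = S' * (A ^ n * A) * S := by rw [hSS']; simp only [mul_assoc, one_mul]
      rw [hpow, Algebra.algebraMap_eq_smul_one]
      simp only [smul_mul_assoc, one_mul, mul_smul_comm]
  have hBn : ‖aeval B p‖ ≤ 2 * M := by
    apply Pool.Agent.W753.CZ.crouzeix_bound B p M
    rintro w ⟨h, hh, rfl⟩
    have e1 : inner ℂ h (B h) = inner ℂ (S' h) (A (S h)) := (Sc_symm σ⁻¹ σ h (A (S h))).symm
    rw [e1]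
    apply pair_bound h2 A hq0 hq1 p M hM
    · have e2 : inner ℂ (S' h) (S h) = inner ℂ h ((S' * S) h) := Sc_symm σ⁻¹ σ h (S h)
      rw [e2, hS'S]
      show inner ℂ h h = 1
      rw [inner_self_real, hh]; simp
    · rw [hS, hS', Sc_norm hx hy hxy, Sc_norm hx hy hxy, hh]
      have hb := bessel hx hy hxy h
      rw [hh] at hb
      set a := ‖inner ℂ x h‖ ^ 2 with ha
      set b := ‖inner ℂ y h‖ ^ 2 with hbd
      have ha0 : 0 ≤ a := by positivity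
      have hb0 : 0 ≤ b := by positivity
      have hi2 : σ⁻¹ ^ 2 = 1 / γ := by rw [inv_pow, hσ2, one_div]
      rw [hi2, hσ2]
      have hge : 2 ≤ γ + 1 / γ := by
        rw [hγs, le_div_iff₀ hqn]; linarith
      have h4 := kant γ a b ha0 hb0 (by linarith) hge
      rw [hγs] at h4
      have h5 : (2 / ‖q‖ / 2) ^ 2 = 1 / ‖q‖ ^ 2 := by field_simp
      rw [h5] at h4
      exact h4
  have hBx : aeval B p x = inner ℂ x (T x) • x + ((γ * ‖d‖ : ℝ) : ℂ) • y := by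
    have hσc : (σ : ℂ) * ((σ⁻¹ : ℝ) : ℂ) = 1 := by exact_mod_cast hσσ
    have hσc2 : (σ : ℂ) * (σ : ℂ) = (γ : ℂ) := by
      rw [← hσ2]; push_cast; ring
    have e0 : aeval B p x = S' (T (S x)) := by rw [hBp]; rfl
    have e1 : S x = (σ : ℂ) • x := Sc_x hx hy hxy _ _
    have e2 : S' x = ((σ⁻¹ : ℝ) : ℂ) • x := Sc_x hx hy hxy _ _
    have e3 : S' y = (σ : ℂ) • y := Sc_y hx hy hxy _ _
    generalize inner ℂ x (T x) = a at hTx ⊢
    rw [e0, e1, map_smul, hTx, map_smul, map_add, map_smul, map_smul, e2, e3]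
    have e4 : ((γ * ‖d‖ : ℝ) : ℂ) = (σ : ℂ) * (((‖d‖ : ℝ) : ℂ) * (σ : ℂ)) := by
      push_cast; linear_combination (-((‖d‖ : ℝ) : ℂ)) * hσc2
    have e5 : a = (σ : ℂ) * (a * ((σ⁻¹ : ℝ) : ℂ)) := by linear_combination (-a) * hσc
    rw [e4]
    conv_rhs => rw [e5]
    simp only [smul_add, smul_smul]
  have hBxn : ‖aeval B p x‖ ^ 2 = ‖inner ℂ x (T x)‖ ^ 2 + γ ^ 2 * ‖d‖ ^ 2 := by
    rw [hBx, @norm_add_sq ℂ, inner_smul_left, inner_smul_right, hxy, norm_smul, norm_smul, hx, hy,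
      Complex.norm_real, Real.norm_of_nonneg (by positivity)]
    simp only [mul_zero, mul_one, map_zero, add_zero]
    ring
  have hfin : ‖aeval B p x‖ ≤ 2 * M := by
    have := (aeval B p).le_opNorm x
    rw [hx, mul_one] at this
    exact this.trans hBn
  have : ‖T x‖ ^ 2 - ‖inner ℂ x (T x)‖ ^ 2 = ‖d‖ ^ 2 := by rw [hTn]; ring
  rw [this, ← hBxn]
  gcongr

/-- first order consequence of near extremality -/
theorem near_orth [FiniteDimensional ℂ H] [Nontrivial H] (T : H →L[ℂ] H) {x : H} (hx : ‖x‖ = 1)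
    (hTx : ‖T x‖ = ‖T‖) (K t : ℝ) (ht : 0 < t)
    (h : ∀ ε : ℂ, ‖ε‖ = t →
      ‖T - ε • (1 : H →L[ℂ] H) + ((starRingEnd ℂ) ε) • (T * T) - ((t ^ 2 : ℝ) : ℂ) • T‖ ≤
        K * (1 + t ^ 2)) :
    (1 - t ^ 2) * ‖T‖ ^ 2 + (‖T‖ ^ 2 - 1) * t * ‖inner ℂ x (T x)‖ ≤ ‖T‖ * (K * (1 + t ^ 2)) := by
  have : CompleteSpace H := FiniteDimensional.complete ℂ H
  set N := ‖T‖ with hN
  have hN0 : 0 ≤ N := norm_nonneg _
  set a := inner ℂ x (T x) with ha
  -- the adjoint relation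
  have hadj : (star T) (T x) = ((N ^ 2 : ℝ) : ℂ) • x := by
    have h1 : ‖(star T) (T x)‖ ≤ N * N := by
      have := (star T).le_opNorm (T x)
      rw [norm_star, hTx] at this
      exact this
    have h2 : inner ℂ ((star T) (T x)) x = ((N ^ 2 : ℝ) : ℂ) := by
      rw [ContinuousLinearMap.star_eq_adjoint, ContinuousLinearMap.adjoint_inner_left,
        inner_self_real, hTx]
    have h3 : ‖(star T) (T x) - ((N ^ 2 : ℝ) : ℂ) • x‖ ^ 2 ≤ 0 := by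
      rw [@norm_sub_sq ℂ, inner_smul_right, h2, norm_smul, hx, Complex.norm_real,
        Real.norm_of_nonneg (by positivity)]
      have h4 : RCLike.re (((N ^ 2 : ℝ) : ℂ) * ((N ^ 2 : ℝ) : ℂ)) = N ^ 2 * N ^ 2 := by
        rw [← Complex.ofReal_mul, RCLike.re_to_complex, Complex.ofReal_re]
      rw [h4]
      have h5 : ‖(star T) (T x)‖ ^ 2 ≤ (N * N) ^ 2 := by gcongr
      nlinarith
    have h6 : ‖(star T) (T x) - ((N ^ 2 : ℝ) : ℂ) • x‖ = 0 := by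
      have := sq_nonneg ‖(star T) (T x) - ((N ^ 2 : ℝ) : ℂ) • x‖
      exact pow_eq_zero_iff two_ne_zero |>.mp (le_antisymm h3 this)
    exact sub_eq_zero.mp (norm_eq_zero.mp h6)
  have hTT : inner ℂ (T x) (T (T x)) = ((N ^ 2 : ℝ) : ℂ) * a := by
    have h1 : inner ℂ (T x) (T (T x)) = inner ℂ ((star T) (T x)) (T x) := by
      rw [ContinuousLinearMap.star_eq_adjoint, ContinuousLinearMap.adjoint_inner_left]
    rw [h1, hadj, inner_smul_left, Complex.conj_ofReal]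
  have hTx' : inner ℂ (T x) x = (starRingEnd ℂ) a := by rw [ha, inner_conj_symm]
  -- choose the phase
  obtain ⟨ε, hε, hεa⟩ : ∃ ε : ℂ, ‖ε‖ = t ∧ (starRingEnd ℂ) ε * a = ((t * ‖a‖ : ℝ) : ℂ) := by
    by_cases h0 : a = 0
    · refine ⟨(t : ℂ), by rw [Complex.norm_real, Real.norm_of_nonneg ht.le], ?_⟩
      rw [h0]; simp
    · have han : ‖a‖ ≠ 0 := norm_ne_zero_iff.mpr h0
      have hanc : ((‖a‖ : ℝ) : ℂ) ≠ 0 := by exact_mod_cast han
      refine ⟨((t / ‖a‖ : ℝ) : ℂ) * a, ?_, ?_⟩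
      · rw [norm_mul, Complex.norm_real, Real.norm_of_nonneg (by positivity)]
        field_simp
      · rw [map_mul, Complex.conj_ofReal, mul_assoc, mul_comm ((starRingEnd ℂ) a), Complex.mul_conj,
          Complex.normSq_eq_norm_sq]
        push_cast
        field_simp
  have h1 := h ε hε
  set R := T - ε • (1 : H →L[ℂ] H) + ((starRingEnd ℂ) ε) • (T * T) - ((t ^ 2 : ℝ) : ℂ) • T with hR
  have hRx : R x = T x - ε • x + ((starRingEnd ℂ) ε) • (T (T x)) - ((t ^ 2 : ℝ) : ℂ) • T x := rfl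
  have h2 : inner ℂ (T x) (R x) = ((N ^ 2 : ℝ) : ℂ) - ε * (starRingEnd ℂ) a +
      (starRingEnd ℂ) ε * (((N ^ 2 : ℝ) : ℂ) * a) - ((t ^ 2 : ℝ) : ℂ) * ((N ^ 2 : ℝ) : ℂ) := by
    rw [hRx, inner_sub_right, inner_add_right, inner_sub_right, inner_smul_right, inner_smul_right,
      inner_smul_right, hTT, hTx', inner_self_real, hTx]
  have h3 : ε * (starRingEnd ℂ) a = ((t * ‖a‖ : ℝ) : ℂ) := by
    have := congrArg (starRingEnd ℂ) hεa
    rw [map_mul, Complex.conj_conj, Complex.conj_ofReal] at this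
    exact this
  have h4 : inner ℂ (T x) (R x) =
      (((1 - t ^ 2) * N ^ 2 + (N ^ 2 - 1) * t * ‖a‖ : ℝ) : ℂ) := by
    rw [h2, h3]
    have : (starRingEnd ℂ) ε * (((N ^ 2 : ℝ) : ℂ) * a) = ((N ^ 2 : ℝ) : ℂ) * ((t * ‖a‖ : ℝ) : ℂ) := by
      rw [← hεa]; ring
    rw [this]
    push_cast
    ring
  have h5 : ‖inner ℂ (T x) (R x)‖ ≤ N * (K * (1 + t ^ 2)) := by
    refine (norm_inner_le_norm _ _).trans ?_
    rw [hTx]
    have h6 := R.le_opNorm x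
    rw [hx, mul_one] at h6
    gcongr
    exact h6.trans h1
  rw [h4, Complex.norm_real] at h5
  exact (le_abs_self _).trans h5

/-- The polynomial `(p - ε)(1 + conj ε p)`. -/
theorem mob_eval (z ε : ℂ) (hz : ‖z‖ ≤ 1) (hε : ‖ε‖ ≤ 1) :
    ‖(z - ε) * (1 + (starRingEnd ℂ) ε * z)‖ ≤ 1 + ‖ε‖ ^ 2 := by
  have h1 : ‖z - ε‖ ≤ ‖1 - (starRingEnd ℂ) ε * z‖ := by
    apply le_of_sq_le_sq _ (norm_nonneg _)
    rw [← Complex.normSq_eq_norm_sq, ← Complex.normSq_eq_norm_sq]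
    have e : Complex.normSq (1 - (starRingEnd ℂ) ε * z) - Complex.normSq (z - ε) =
        (1 - Complex.normSq z) * (1 - Complex.normSq ε) := by
      simp only [Complex.normSq_apply, Complex.sub_re, Complex.sub_im, Complex.mul_re,
        Complex.mul_im, Complex.one_re, Complex.one_im, Complex.conj_re, Complex.conj_im]
      ring
    have h2 : Complex.normSq z ≤ 1 := by
      rw [Complex.normSq_eq_norm_sq]; exact pow_le_one₀ (norm_nonneg _) hz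
    have h3 : Complex.normSq ε ≤ 1 := by
      rw [Complex.normSq_eq_norm_sq]; exact pow_le_one₀ (norm_nonneg _) hε
    have := mul_nonneg (sub_nonneg.mpr h2) (sub_nonneg.mpr h3)
    linarith
  rw [norm_mul]
  calc ‖z - ε‖ * ‖1 + (starRingEnd ℂ) ε * z‖ ≤
      ‖1 - (starRingEnd ℂ) ε * z‖ * ‖1 + (starRingEnd ℂ) ε * z‖ := by gcongr
    _ = ‖1 - ((starRingEnd ℂ) ε * z) ^ 2‖ := by rw [← norm_mul]; congr 1; ring
    _ ≤ ‖(1 : ℂ)‖ + ‖((starRingEnd ℂ) ε * z) ^ 2‖ := norm_sub_le _ _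
    _ ≤ 1 + ‖ε‖ ^ 2 := by
        rw [norm_one, norm_pow, norm_mul, RCLike.norm_conj]
        gcongr
        calc ‖ε‖ * ‖z‖ ≤ ‖ε‖ * 1 := by gcongr
          _ = ‖ε‖ := mul_one _

theorem scal (K N a δ γ : ℝ) (hK1 : 1 < K) (hK2 : K ≤ 2) (hNK : N ≤ K) (hlt : K - δ ^ 2 < N)
    (hδ : 0 < δ) (hδK : δ ^ 2 < (K - 1) / 2) (ha0 : 0 ≤ a)
    (hno : (1 - δ ^ 2) * N ^ 2 + (N ^ 2 - 1) * δ * a ≤ N * (K * (1 + δ ^ 2)))
    (hvb : a ^ 2 + γ ^ 2 * (N ^ 2 - a ^ 2) ≤ (2 * 1) ^ 2) :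
    γ ^ 2 * (K - δ ^ 2) ^ 2 ≤ 4 + γ ^ 2 * (20 / (K - 1) * δ) ^ 2 := by
  have hN1 : (K + 1) / 2 < N := by linarith
  have hN0 : 1 < N := by linarith
  have hKm : 0 < K - 1 := by linarith
  have hd2 : 0 < δ ^ 2 := by positivity
  have hkey : (K - 1) / 2 * a ≤ 10 * δ := by
    have h6 : (N ^ 2 - 1) * δ * a ≤ N * (K - N) + δ ^ 2 * (N * K + N ^ 2) := by linarith
    have h7 : N * (K - N) ≤ 2 * δ ^ 2 := by
      have h8 : K - N ≤ δ ^ 2 := by linarith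
      calc N * (K - N) ≤ N * δ ^ 2 := mul_le_mul_of_nonneg_left h8 (by linarith)
        _ ≤ 2 * δ ^ 2 := mul_le_mul_of_nonneg_right (by linarith) hd2.le
    have h9 : N * K + N ^ 2 ≤ 8 := by
      have h91 : N * K ≤ 2 * 2 := mul_le_mul (by linarith) hK2 (by linarith) (by norm_num)
      have h92 : N ^ 2 ≤ 2 ^ 2 := pow_le_pow_left₀ (by linarith) (by linarith) 2
      linarith
    have h10 : (N ^ 2 - 1) * δ * a ≤ 10 * δ ^ 2 := by
      have := mul_le_mul_of_nonneg_left h9 hd2.le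
      linarith
    have h11 : (N ^ 2 - 1) * a ≤ 10 * δ := by
      have h12 : δ * ((N ^ 2 - 1) * a) ≤ δ * (10 * δ) := by
        calc δ * ((N ^ 2 - 1) * a) = (N ^ 2 - 1) * δ * a := by ring
          _ ≤ 10 * δ ^ 2 := h10
          _ = δ * (10 * δ) := by ring
      exact le_of_mul_le_mul_left h12 hδ
    have h13 : (K - 1) / 2 ≤ N ^ 2 - 1 := by
      have : N * 1 ≤ N * N := mul_le_mul_of_nonneg_left hN0.le (by linarith)
      nlinarith
    exact (mul_le_mul_of_nonneg_right h13 ha0).trans h11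
  have hale : a ≤ 20 / (K - 1) * δ := by
    rw [div_mul_eq_mul_div, le_div_iff₀ hKm]; linarith
  have h14 : γ ^ 2 * N ^ 2 ≤ 4 + γ ^ 2 * a ^ 2 := by
    have := sq_nonneg a
    linarith
  have hδ2 : 0 ≤ K - δ ^ 2 := by linarith
  calc γ ^ 2 * (K - δ ^ 2) ^ 2 ≤ γ ^ 2 * N ^ 2 := by gcongr
    _ ≤ 4 + γ ^ 2 * a ^ 2 := h14
    _ ≤ _ := by gcongr

/-- **Q1 in full.** -/
theorem full_main [FiniteDimensional ℂ H] (h2 : 2 ≤ Module.finrank ℂ H) (A : H →L[ℂ] H) {q : ℂ}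
    (hq0 : q ≠ 0) (hq1 : ‖q‖ ≤ 1) (p : ℂ[X]) (M : ℝ) (hM : ∀ w ∈ Om A q, ‖p.eval w‖ ≤ M) :
    ‖aeval A p‖ ≤ max 1 (2 * ‖q‖ / (1 + Real.sqrt (1 - ‖q‖ ^ 2))) * M := by
  have : CompleteSpace H := FiniteDimensional.complete ℂ H
  have hnt : Nontrivial H := by
    apply Module.nontrivial_of_finrank_pos (R := ℂ); omega
  have hqn : 0 < ‖q‖ := norm_pos_iff.mpr hq0
  set s := Real.sqrt (1 - ‖q‖ ^ 2) with hs
  have hs0 : 0 ≤ s := Real.sqrt_nonneg _
  set γ := (1 + s) / ‖q‖ with hγ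
  have hγ1 : 1 ≤ γ := by
    rw [hγ, le_div_iff₀ hqn]; linarith
  have hγ0 : 0 < γ := by linarith
  have hcq : 2 * ‖q‖ / (1 + s) = 2 / γ := by rw [hγ]; field_simp
  rw [hcq]
  -- Crouzeix's bound on the larger set
  have hcr : ∀ (g : ℂ[X]) (M : ℝ), (∀ w ∈ Om A q, ‖g.eval w‖ ≤ M) → ‖aeval A g‖ ≤ 2 * M := by
    intro g M hg
    apply Pool.Agent.W753.CZ.crouzeix_bound A g M
    rintro w ⟨x, hx, rfl⟩
    exact disc_bound h2 A hq0 hq1 g M hg hx _ (by rw [sub_self, norm_zero]; positivity)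
  set V : Set ℝ := {r | ∃ g : ℂ[X], (∀ w ∈ Om A q, ‖g.eval w‖ ≤ 1) ∧ ‖aeval A g‖ = r} with hV
  have hbdd : BddAbove V := ⟨2, by rintro _ ⟨g, hg, rfl⟩; simpa using hcr g 1 hg⟩
  have hne : V.Nonempty := ⟨‖aeval A (1 : ℂ[X])‖, 1, by intro w _; simp, rfl⟩
  set K := sSup V with hK
  have hKle : ∀ g : ℂ[X], (∀ w ∈ Om A q, ‖g.eval w‖ ≤ 1) → ‖aeval A g‖ ≤ K := fun g hg =>
    le_csSup hbdd ⟨g, hg, rfl⟩
  have hK1 : 1 ≤ K := by
    have := hKle 1 (by intro w _; simp)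
    simpa using this
  have hK2 : K ≤ 2 := csSup_le hne (by rintro _ ⟨g, hg, rfl⟩; simpa using hcr g 1 hg)
  have hmain : K ≤ max 1 (2 / γ) := by
    by_contra hcon
    push Not at hcon
    obtain ⟨hc1, hc2⟩ := max_lt_iff.mp hcon
    have hγK : 2 < γ * K := by
      rw [div_lt_iff₀ hγ0] at hc2; linarith
    -- the basic inequality for small `δ`
    have hbas : ∀ δ : ℝ, 0 < δ → δ ≤ 1 → δ ^ 2 < (K - 1) / 2 →
        γ ^ 2 * (K - δ ^ 2) ^ 2 ≤ 4 + γ ^ 2 * (20 / (K - 1) * δ) ^ 2 := by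
      intro δ hδ hδ1 hδK
      obtain ⟨_, ⟨g, hg, rfl⟩, hlt⟩ := exists_lt_of_lt_csSup hne
        (show K - δ ^ 2 < sSup V by rw [← hK]; nlinarith [sq_nonneg δ, pow_pos hδ 2])
      set T := aeval A g with hT
      have hTK : ‖T‖ ≤ K := hKle g hg
      obtain ⟨x, hx, hTx⟩ := norm_attained T
      have hno := near_orth T hx hTx K δ hδ (by
        intro ε hε
        have hε1 : ‖ε‖ ≤ 1 := by rw [hε]; exact hδ1
        set g2 : ℂ[X] := C (((1 + δ ^ 2 : ℝ) : ℂ)⁻¹) * ((g - C ε) * (1 + C ((starRingEnd ℂ) ε) * g))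
          with hg2
        have hpos : (0 : ℝ) < 1 + δ ^ 2 := by positivity
        have hposc : ((1 + δ ^ 2 : ℝ) : ℂ) ≠ 0 := by exact_mod_cast hpos.ne'
        have h3 : ‖aeval A g2‖ ≤ K := by
          apply hKle
          intro w hw
          rw [hg2]
          simp only [eval_mul, eval_sub, eval_add, eval_one, eval_C]
          rw [norm_mul, norm_inv, Complex.norm_real, Real.norm_of_nonneg hpos.le,
            inv_mul_le_iff₀ hpos, mul_one, ← hε]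
          exact mob_eval _ _ (hg w hw) hε1
        have h4 : aeval A g2 = (((1 + δ ^ 2 : ℝ) : ℂ)⁻¹) •
            (T - ε • (1 : H →L[ℂ] H) + ((starRingEnd ℂ) ε) • (T * T) - ((δ ^ 2 : ℝ) : ℂ) • T) := by
          rw [hg2]
          simp only [map_mul, map_sub, map_add, map_one, aeval_C, Algebra.algebraMap_eq_smul_one,
            ← hT, smul_mul_assoc, one_mul]
          congr 1
          have h5 : (starRingEnd ℂ) ε * ε = ((δ ^ 2 : ℝ) : ℂ) := by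
            rw [mul_comm, Complex.mul_conj, Complex.normSq_eq_norm_sq, hε]
          rw [← h5]
          simp only [sub_mul, mul_add, mul_one, smul_mul_assoc, one_mul, mul_smul_comm, smul_sub,
            smul_smul]
          abel
        rw [h4, norm_smul, norm_inv, Complex.norm_real, Real.norm_of_nonneg hpos.le,
          inv_mul_le_iff₀ hpos] at h3
        linarith)
      have hvb := vec_bound h2 A hq0 hq1 g 1 hg (γ := γ) rfl hx
      rw [← hT, hTx] at hvb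
      exact scal K ‖T‖ ‖inner ℂ x (T x)‖ δ γ hc1 hK2 hTK hlt hδ hδK (norm_nonneg _) hno hvb
    -- let `δ → 0`
    have hcont : Continuous fun δ : ℝ =>
        4 + γ ^ 2 * (20 / (K - 1) * δ) ^ 2 - γ ^ 2 * (K - δ ^ 2) ^ 2 := by fun_prop
    have h0 : (fun δ : ℝ => 4 + γ ^ 2 * (20 / (K - 1) * δ) ^ 2 - γ ^ 2 * (K - δ ^ 2) ^ 2) 0 < 0 := by
      show 4 + γ ^ 2 * (20 / (K - 1) * 0) ^ 2 - γ ^ 2 * (K - 0 ^ 2) ^ 2 < 0
      have : 4 < (γ * K) ^ 2 := by nlinarith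
      ring_nf
      ring_nf at this
      linarith
    have hev1 : ∀ᶠ δ : ℝ in 𝓝[>] 0,
        4 + γ ^ 2 * (20 / (K - 1) * δ) ^ 2 - γ ^ 2 * (K - δ ^ 2) ^ 2 < 0 :=
      nhdsWithin_le_nhds (hcont.continuousAt.eventually_lt continuousAt_const h0)
    have hev2 : ∀ᶠ δ : ℝ in 𝓝[>] 0, δ ^ 2 < (K - 1) / 2 := by
      have hc : Continuous fun δ : ℝ => δ ^ 2 := by fun_prop
      refine nhdsWithin_le_nhds (hc.continuousAt.eventually_lt continuousAt_const ?_)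
      have : 0 < K - 1 := by linarith
      show (0 : ℝ) ^ 2 < (K - 1) / 2
      rw [zero_pow two_ne_zero]; linarith
    have hev3 : ∀ᶠ δ : ℝ in 𝓝[>] 0, δ < 1 :=
      nhdsWithin_le_nhds (eventually_lt_nhds one_pos)
    obtain ⟨δ, hδ1, hδ2, hδ3, hδ4⟩ :=
      (hev1.and (hev2.and (hev3.and self_mem_nhdsWithin))).exists
    have := hbas δ hδ4 hδ3.le hδ2
    linarith
  -- scaling
  have hM0 : 0 ≤ M := by
    obtain ⟨x, hx⟩ := exists_norm_eq H zero_le_one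
    have := disc_bound h2 A hq0 hq1 p M hM hx _ (by rw [sub_self, norm_zero]; positivity)
    exact (norm_nonneg _).trans this
  rcases hM0.eq_or_lt with h0 | h0
  · have := hcr p M hM
    rw [← h0] at this ⊢
    linarith
  · have hMc : (M : ℂ) ≠ 0 := by exact_mod_cast h0.ne'
    have h3 := hKle (C ((M : ℂ)⁻¹) * p) (by
      intro w hw
      rw [eval_mul, eval_C, norm_mul, norm_inv, Complex.norm_real, Real.norm_of_nonneg h0.le,
        inv_mul_le_iff₀ h0, mul_one]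
      exact hM w hw)
    rw [map_mul, aeval_C, Algebra.algebraMap_eq_smul_one, smul_mul_assoc, one_mul, norm_smul,
      norm_inv, Complex.norm_real, Real.norm_of_nonneg h0.le, inv_mul_le_iff₀ h0] at h3
    calc ‖aeval A p‖ ≤ M * K := h3
      _ ≤ M * max 1 (2 / γ) := by gcongr
      _ = _ := mul_comm _ _

end Pool.Agent.Q169.CZ
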