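import Pool.Agent.Q169.CZ.Core

set_option autoImplicit false
open Complex Metric Filter Topology Polynomial

namespace Pool.Agent.Q169.CZ

variable {H : Type*} [NormedAddCommGroup H] [InnerProductSpace ℂ H]

/-- The boundary ellipse of the scaled `q`-numerical range of the off-diagonal model. -/
theorem ellipse_mem (T : H →L[ℂ] H) {q : ℂ} (hq0 : q ≠ 0) (hq1 : ‖q‖ ≤ 1) {e1 e2 : H}
    (he1 : ‖e1‖ = 1) (he2 : ‖e2‖ = 1) (h12 : inner ℂ e1 e2 = 0) {u v : ℝ}
    (hT1 : T e1 = (v : ℂ) • e2) (hT2 : T e2 = (u : ℂ) • e1) (s γ : ℝ)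
    (hs : s = Real.sqrt (1 - ‖q‖ ^ 2)) (hγ : γ = (1 + s) / ‖q‖) (w : ℂ) (hw : ‖w‖ = 1) :
    ((γ * v / 2 : ℝ) : ℂ) * (starRingEnd ℂ) w + ((u / (2 * γ) : ℝ) : ℂ) * w ∈ Om T q := by
  have hqn : 0 < ‖q‖ := norm_pos_iff.mpr hq0
  have hs2 : s ^ 2 = 1 - ‖q‖ ^ 2 := by
    rw [hs]; exact Real.sq_sqrt (by nlinarith)
  have hs0 : 0 ≤ s := by rw [hs]; exact Real.sqrt_nonneg _
  have hs1 : s ≤ 1 := by nlinarith
  set C := Real.sqrt ((1 + s) / 2) with hC
  set S := Real.sqrt ((1 - s) / 2) with hS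
  have hC2 : C ^ 2 = (1 + s) / 2 := Real.sq_sqrt (by linarith)
  have hS2 : S ^ 2 = (1 - s) / 2 := Real.sq_sqrt (by linarith)
  have hCS : C * S = ‖q‖ / 2 := by
    rw [hC, hS, ← Real.sqrt_mul (by linarith)]
    have : (1 + s) / 2 * ((1 - s) / 2) = (‖q‖ / 2) ^ 2 := by nlinarith
    rw [this, Real.sqrt_sq (by positivity)]
  have h21 : inner ℂ e2 e1 = 0 := by rw [← inner_conj_symm, h12, map_zero]
  have hww : (starRingEnd ℂ) w * w = 1 := by
    rw [mul_comm, Complex.mul_conj, Complex.normSq_eq_norm_sq, hw]; simp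
  have hi1 : inner ℂ e1 e1 = 1 := by rw [inner_self_real, he1]; simp
  have hi2 : inner ℂ e2 e2 = 1 := by rw [inner_self_real, he2]; simp
  set x : H := (C : ℂ) • e1 + ((S : ℂ) * w) • e2 with hx
  set z : H := (-(S : ℂ)) • e1 + ((C : ℂ) * w) • e2 with hz
  have hxn : ‖x‖ = 1 := by
    have h1 : ‖x‖ ^ 2 = 1 := by
      rw [hx, @norm_add_sq ℂ, inner_smul_left, inner_smul_right, h12, norm_smul, norm_smul, he1,
        he2, norm_mul, hw, Complex.norm_real, Complex.norm_real, Real.norm_eq_abs,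
        Real.norm_eq_abs]
      simp only [mul_zero, mul_one, map_zero, add_zero, sq_abs]
      rw [hC2, hS2]; ring
    exact (pow_eq_one_iff_of_nonneg (norm_nonneg _) two_ne_zero).mp h1
  have hzn : ‖z‖ = 1 := by
    have h1 : ‖z‖ ^ 2 = 1 := by
      rw [hz, @norm_add_sq ℂ, inner_smul_left, inner_smul_right, h12, norm_smul, norm_smul, he1,
        he2, norm_mul, hw, norm_neg, Complex.norm_real, Complex.norm_real, Real.norm_eq_abs,
        Real.norm_eq_abs]
      simp only [mul_zero, mul_one, map_zero, add_zero, sq_abs]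
      rw [hC2, hS2]; ring
    exact (pow_eq_one_iff_of_nonneg (norm_nonneg _) two_ne_zero).mp h1
  have hzx : inner ℂ z x = 0 := by
    rw [hz, hx]
    simp only [inner_add_left, inner_add_right, inner_smul_left, inner_smul_right, h12, h21, hi1,
      hi2, map_mul, map_neg, Complex.conj_ofReal]
    linear_combination ((C : ℂ) * (S : ℂ)) * hww
  have hTx : T x = ((C : ℂ) * (v : ℂ)) • e2 + ((S : ℂ) * w * (u : ℂ)) • e1 := by
    rw [hx, map_add, map_smul, map_smul, hT1, hT2, smul_smul, smul_smul]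
  have hxT : inner ℂ x (T x) = (C : ℂ) * S * (w * u + (starRingEnd ℂ) w * v) := by
    rw [hTx, hx]
    simp only [inner_add_left, inner_add_right, inner_smul_left, inner_smul_right, h12, h21, hi1,
      hi2, map_mul, Complex.conj_ofReal]
    ring
  have hzT : inner ℂ z (T x) = (C : ℂ) ^ 2 * (starRingEnd ℂ) w * v - (S : ℂ) ^ 2 * w * u := by
    rw [hTx, hz]
    simp only [inner_add_left, inner_add_right, inner_smul_left, inner_smul_right, h12, h21, hi1,
      hi2, map_mul, map_neg, Complex.conj_ofReal]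
    ring
  have he : ‖q / ((‖q‖ : ℝ) : ℂ)‖ = 1 := by
    rw [norm_div, Complex.norm_real, norm_norm, div_self hqn.ne']
  have hqc : ((‖q‖ : ℝ) : ℂ) ≠ 0 := by exact_mod_cast hqn.ne'
  have h := mem_Om T hq0 hq1 hxn hzn hzx _ he
  rw [hxT, hzT, ← hs] at h
  have hCS' : (C : ℂ) * S = ((‖q‖ : ℝ) : ℂ) / 2 := by
    rw [← Complex.ofReal_mul, hCS]; push_cast; rfl
  have hC2' : (C : ℂ) ^ 2 = (1 + s) / 2 := by
    rw [← Complex.ofReal_pow, hC2]; push_cast; rfl
  have hS2' : (S : ℂ) ^ 2 = (1 - s) / 2 := by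
    rw [← Complex.ofReal_pow, hS2]; push_cast; rfl
  have hs2' : (s : ℂ) ^ 2 = 1 - ((‖q‖ : ℝ) : ℂ) ^ 2 := by
    rw [← Complex.ofReal_pow, hs2]; push_cast; rfl
  have h1s : (1 + (s : ℂ)) ≠ 0 := by
    have : (0 : ℝ) < 1 + s := by linarith
    exact_mod_cast this.ne'
  rw [hCS', hC2', hS2'] at h
  convert h using 1
  rw [hγ]
  push_cast
  field_simp
  ring_nf
  ring_nf at hs2'
  rw [show (s : ℂ) ^ 3 = s * s ^ 2 by ring, hs2']
  ring

/-- the cubic fixing the model operators -/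
noncomputable def cub (R D : ℝ) : ℂ[X] :=
  C (((1 - 4 * (D / R) ^ 2 : ℝ)) : ℂ) * X + C ((D / R ^ 3 : ℝ) : ℂ) * X ^ 3

theorem cub_eval_mem (R D : ℝ) (hR : 0 < R) (hD : 0 ≤ D) (h4 : 4 * D ≤ R) (z : ℂ) (hz : ‖z‖ = R) :
    (((cub R D).eval z).re / (R + D)) ^ 2 + (((cub R D).eval z).im / (R - D)) ^ 2 ≤ 1 := by
  have hxy : (z.re / R) ^ 2 + (z.im / R) ^ 2 = 1 := by
    have h1 : z.re ^ 2 + z.im ^ 2 = R ^ 2 := by
      rw [← hz, ← Complex.normSq_eq_norm_sq, Complex.normSq_apply]; ring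
    field_simp
    exact h1
  have h := cubic_mem R D (z.re / R) (z.im / R) hR hD h4 hxy
  have e1 : ((cub R D).eval z).re = R * ((1 - 4 * (D / R) ^ 2) * (z.re / R) +
      (D / R) * ((z.re / R) ^ 3 - 3 * (z.re / R) * (z.im / R) ^ 2)) := by
    simp only [cub, eval_add, eval_mul, eval_C, eval_X, eval_pow]
    rw [Complex.add_re, Complex.re_ofReal_mul, Complex.re_ofReal_mul]
    have : (z ^ 3).re = z.re ^ 3 - 3 * z.re * z.im ^ 2 := by
      rw [pow_succ, pow_two]; simp; ring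
    rw [this]
    field_simp
  have e2 : ((cub R D).eval z).im = R * ((1 - 4 * (D / R) ^ 2) * (z.im / R) +
      (D / R) * (3 * (z.re / R) ^ 2 * (z.im / R) - (z.im / R) ^ 3)) := by
    simp only [cub, eval_add, eval_mul, eval_C, eval_X, eval_pow]
    rw [Complex.add_im, Complex.im_ofReal_mul, Complex.im_ofReal_mul]
    have : (z ^ 3).im = 3 * z.re ^ 2 * z.im - z.im ^ 3 := by
      rw [pow_succ, pow_two]; simp; ring
    rw [this]
    field_simp
  rw [e1, e2]
  exact h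

theorem cub_aeval (R D a b : ℝ) (hR : R ≠ 0) (hab : a * b = 4 * R * D) :
    aeval (Tm a b) (cub R D) = Tm a b := by
  simp only [cub, map_add, map_mul, aeval_C, aeval_X, map_pow, Algebra.algebraMap_eq_smul_one]
  have h3 : (Tm a b) ^ 3 = (Tm a b * Tm a b) * Tm a b := by rw [pow_succ, pow_two]
  rw [h3, Tm_sq, hab]
  simp only [smul_mul_assoc, one_mul, smul_smul]
  rw [← add_smul]
  have : (((1 - 4 * (D / R) ^ 2 : ℝ)) : ℂ) + ((D / R ^ 3 : ℝ) : ℂ) * ((4 * R * D : ℝ) : ℂ) = 1 := by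
    rw [← Complex.ofReal_mul, ← Complex.ofReal_add]
    have h : 1 - 4 * (D / R) ^ 2 + D / R ^ 3 * (4 * R * D) = 1 := by field_simp; ring
    rw [h]; simp
  rw [this, one_smul]

/-- The norm bound for the two-dimensional model. -/
theorem model_bound [FiniteDimensional ℂ H] (h2 : 2 ≤ Module.finrank ℂ H) (T : H →L[ℂ] H) {q : ℂ}
    (hq0 : q ≠ 0) (hq1 : ‖q‖ ≤ 1) (P : ℂ[X]) (M : ℝ) (hM : ∀ w ∈ Om T q, ‖P.eval w‖ ≤ M)
    {e1 e2 : H} (he1 : ‖e1‖ = 1) (he2 : ‖e2‖ = 1) (h12 : inner ℂ e1 e2 = 0) {u v : ℝ}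
    (hu : 0 ≤ u) (hv : 0 < v) (huv : u ≤ v)
    (hT1 : T e1 = (v : ℂ) • e2) (hT2 : T e2 = (u : ℂ) • e1) :
    ‖aeval (Tm u v) P‖ ≤ max 1 (2 * ‖q‖ / (1 + Real.sqrt (1 - ‖q‖ ^ 2))) * M := by
  have hqn : 0 < ‖q‖ := norm_pos_iff.mpr hq0
  set s := Real.sqrt (1 - ‖q‖ ^ 2) with hs
  have hs0 : 0 ≤ s := Real.sqrt_nonneg _
  set γ := (1 + s) / ‖q‖ with hγ
  have hγ0 : 0 < γ := by positivity
  have hcq : 2 * ‖q‖ / (1 + s) = 2 / γ := by rw [hγ]; field_simp
  rw [hcq]
  have hcirc : ∀ w : ℂ, ‖w‖ = 1 →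
      ‖P.eval (((γ * v / 2 : ℝ) : ℂ) * (starRingEnd ℂ) w + ((u / (2 * γ) : ℝ) : ℂ) * w)‖ ≤ M :=
    fun w hw => hM _ (ellipse_mem T hq0 hq1 he1 he2 h12 hT1 hT2 s γ hs hγ w hw)
  have hM0 : 0 ≤ M := (norm_nonneg _).trans (hcirc 1 (by simp))
  set R := γ * v / 2 with hR
  set D := u / (2 * γ) with hD
  have hR0 : 0 < R := by positivity
  have hD0 : 0 ≤ D := by positivity
  have hRD : u * v = 4 * R * D := by rw [hR, hD]; field_simp; norm_num
  rcases le_or_gt (4 * D) R with h4 | h4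
  · -- the bound on the circle of radius R after composition with the cubic
    have hE : ∀ z : ℂ, (z.re / (R + D)) ^ 2 + (z.im / (R - D)) ^ 2 ≤ 1 → ‖P.eval z‖ ≤ M := by
      intro z hz
      refine eval_le_of_ellipse P (R + D) (R - D) M (by linarith) (by linarith) ?_ z hz
      intro x y hxy
      have hw : ‖(⟨x, -y⟩ : ℂ)‖ = 1 := by
        have h1 : ‖(⟨x, -y⟩ : ℂ)‖ ^ 2 = 1 := by
          rw [← Complex.normSq_eq_norm_sq, Complex.normSq_apply]
          simp only; nlinarith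
        exact (pow_eq_one_iff_of_nonneg (norm_nonneg _) two_ne_zero).mp h1
      have h1 := hcirc ⟨x, -y⟩ hw
      have h3 : ((R : ℝ) : ℂ) * (starRingEnd ℂ) ⟨x, -y⟩ + ((D : ℝ) : ℂ) * ⟨x, -y⟩ =
          ⟨(R + D) * x, (R - D) * y⟩ := by
        apply Complex.ext
        · simp; ring
        · simp; ring
      rwa [h3] at h1
    have hcomp : ∀ a b : ℝ, |a| ≤ R → |b| ≤ R → a * b = 4 * R * D → ‖aeval (Tm a b) P‖ ≤ M := by
      intro a b ha hb hab
      have h5 : aeval (Tm a b) P = aeval (Tm a b) (P.comp (cub R D)) := by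
        rw [aeval_comp, cub_aeval R D a b hR0.ne' hab]
      rw [h5]
      apply vN (Tm a b) R hR0 (Tm_norm ha hb) _ M hM0
      intro z hz
      rw [eval_comp]
      exact hE _ (cub_eval_mem R D hR0 hD0 h4 z hz)
    rcases le_or_gt 2 γ with h6 | h6
    · have hRv : v ≤ R := by rw [hR]; nlinarith
      have h7 := hcomp u v (by rw [abs_of_nonneg hu]; linarith) (by rw [abs_of_pos hv]; exact hRv)
        hRD
      calc ‖aeval (Tm u v) P‖ ≤ 1 * M := by rw [one_mul]; exact h7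
        _ ≤ _ := by gcongr; exact le_max_left _ _
    · have hK : 1 ≤ 2 / γ := by rw [le_div_iff₀ hγ0]; linarith
      have e1' : u * (2 / γ) = 4 * D := by rw [hD]; field_simp; ring
      have e2' : v / (2 / γ) = R := by rw [hR]; field_simp
      have h7 := Tm_similar u v (2 / γ) hK P
      rw [e1', e2'] at h7
      have h8 := hcomp (4 * D) R (by rw [abs_of_nonneg (by positivity)]; exact h4)
        (by rw [abs_of_pos hR0]) (by ring)
      calc ‖aeval (Tm u v) P‖ ≤ 2 / γ * ‖aeval (Tm (4 * D) R) P‖ := h7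
        _ ≤ 2 / γ * M := by gcongr
        _ ≤ _ := by gcongr; exact le_max_right _ _
  · -- the remaining case
    have hu0 : 0 < u := by
      by_contra h
      have : u = 0 := le_antisymm (not_lt.mp h) hu
      rw [hD, this] at h4
      simp at h4
      linarith
    set ρ := Real.sqrt (u * v) with hρ
    have hρ2 : ρ ^ 2 = u * v := Real.sq_sqrt (by positivity)
    have hρ0 : 0 < ρ := Real.sqrt_pos.mpr (by positivity)
    have hρv : ρ ≤ v := by
      apply le_of_sq_le_sq _ hv.le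
      rw [hρ2]; nlinarith
    have hK : 1 ≤ v / ρ := by rw [le_div_iff₀ hρ0]; linarith
    have h7 := Tm_similar u v (v / ρ) hK P
    have e1' : u * (v / ρ) = ρ := by
      rw [mul_div_assoc', ← hρ2]; field_simp
    have e2' : v / (v / ρ) = ρ := by field_simp
    rw [e1', e2'] at h7
    have hsu : Real.sqrt u ^ 2 = u := Real.sq_sqrt hu
    have hsv : Real.sqrt v ^ 2 = v := Real.sq_sqrt hv.le
    have hsuv : Real.sqrt u * Real.sqrt v = ρ := by rw [hρ, Real.sqrt_mul hu]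
    have hsv0 : 0 < Real.sqrt v := Real.sqrt_pos.mpr hv
    have h21 : inner ℂ e2 e1 = 0 := by rw [← inner_conj_symm, h12, map_zero]
    have hi2 : inner ℂ e2 e2 = 1 := by rw [inner_self_real, he2]; simp
    have hsuc : ((Real.sqrt u : ℝ) : ℂ) * ((Real.sqrt v : ℝ) : ℂ) = (ρ : ℂ) := by
      rw [← Complex.ofReal_mul, hsuv]
    have hvc : (v : ℂ) = ((Real.sqrt v : ℝ) : ℂ) ^ 2 := by rw [← Complex.ofReal_pow, hsv]
    have huc : (u : ℂ) = ((Real.sqrt u : ℝ) : ℂ) ^ 2 := by rw [← Complex.ofReal_pow, hsu]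
    have hev : ∀ ε : ℂ, ε * ε = 1 → ‖P.eval (ε * (ρ : ℂ))‖ ≤ M := by
      intro ε hε
      have hf0 : ((Real.sqrt u : ℝ) : ℂ) • e1 + (ε * ((Real.sqrt v : ℝ) : ℂ)) • e2 ≠ 0 := by
        intro h
        have h8 : inner ℂ e2 (((Real.sqrt u : ℝ) : ℂ) • e1 + (ε * ((Real.sqrt v : ℝ) : ℂ)) • e2) =
            0 := by rw [h, inner_zero_right]
        rw [inner_add_right, inner_smul_right, inner_smul_right, h21, hi2, mul_zero, zero_add,
          mul_one] at h8
        rcases mul_eq_zero.mp h8 with h9 | h9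
        · rw [h9] at hε; simp at hε
        · exact hsv0.ne' (by exact_mod_cast h9)
      apply eigen_bound h2 T hq0 hq1 P M hM hf0
      rw [map_add, map_smul, map_smul, hT1, hT2, smul_smul, smul_smul, smul_add, smul_smul,
        smul_smul, add_comm]
      congr 1
      · congr 1
        rw [← hsuc, huc]; ring
      · congr 1
        rw [← hsuc, hvc]
        linear_combination (-((Real.sqrt u : ℝ) : ℂ) * ((Real.sqrt v : ℝ) : ℂ) ^ 2) * hε
    have h8 : ‖aeval (Tm ρ ρ) P‖ ≤ M := by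
      apply Tm_symm
      · have := hev 1 (by ring); simpa using this
      · have := hev (-1) (by ring); simpa using this
    have hKle : v / ρ ≤ 2 / γ := by
      rw [div_le_div_iff₀ hρ0 hγ0]
      have h9 : R ≤ ρ := by
        apply le_of_sq_le_sq _ hρ0.le
        rw [hρ2, hRD]; nlinarith
      rw [hR] at h9; linarith
    calc ‖aeval (Tm u v) P‖ ≤ v / ρ * ‖aeval (Tm ρ ρ) P‖ := h7
      _ ≤ 2 / γ * M := by
        apply mul_le_mul hKle h8 (norm_nonneg _) (by positivity)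
      _ ≤ _ := by gcongr; exact le_max_right _ _

/-- Transfer of the model bound to the plane spanned by the orthonormal pair. -/
theorem plane_bound [FiniteDimensional ℂ H] (h2 : 2 ≤ Module.finrank ℂ H) (T : H →L[ℂ] H) {q : ℂ}
    (hq0 : q ≠ 0) (hq1 : ‖q‖ ≤ 1) (P : ℂ[X]) (M : ℝ) (hM : ∀ w ∈ Om T q, ‖P.eval w‖ ≤ M)
    {e1 e2 : H} (he1 : ‖e1‖ = 1) (he2 : ‖e2‖ = 1) (h12 : inner ℂ e1 e2 = 0) {u v : ℝ}
    (hu : 0 ≤ u) (hv : 0 < v) (huv : u ≤ v)
    (hT1 : T e1 = (v : ℂ) • e2) (hT2 : T e2 = (u : ℂ) • e1) (a b : ℂ) :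
    ‖aeval T P (a • e1 + b • e2)‖ ≤
      max 1 (2 * ‖q‖ / (1 + Real.sqrt (1 - ‖q‖ ^ 2))) * M * ‖a • e1 + b • e2‖ := by
  have hmb := model_bound h2 T hq0 hq1 P M hM he1 he2 h12 hu hv huv hT1 hT2
  let ι : EuclideanSpace ℂ (Fin 2) →ₗ[ℂ] H :=
    { toFun := fun w => w 0 • e1 + w 1 • e2
      map_add' := by intro x y; simp only [PiLp.add_apply, add_smul]; abel
      map_smul' := by
        intro c x
        simp only [PiLp.smul_apply, smul_eq_mul, mul_smul, smul_add, RingHom.id_apply] }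
  have hι : ∀ w, ι w = w 0 • e1 + w 1 • e2 := fun _ => rfl
  have hιn : ∀ w, ‖ι w‖ = ‖w‖ := by
    intro w
    have h1 : ‖ι w‖ ^ 2 = ‖w‖ ^ 2 := by
      rw [hι, norm_sq_two, @norm_add_sq ℂ, inner_smul_left, inner_smul_right, h12, norm_smul,
        norm_smul, he1, he2]
      simp
    exact (pow_left_inj₀ (norm_nonneg _) (norm_nonneg _) two_ne_zero).mp h1
  have hint : ∀ w, T (ι w) = ι (Tm u v w) := by
    intro w
    rw [hι, hι, map_add, map_smul, map_smul, hT1, hT2, Tm_zero, Tm_one, smul_smul, smul_smul,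
      add_comm, mul_comm (w 1), mul_comm (w 0)]
  set w : EuclideanSpace ℂ (Fin 2) := !₂[a, b] with hw
  have hιw : ι w = a • e1 + b • e2 := rfl
  rw [← hιw, intertwine T (Tm u v) ι hint, hιn, hιn]
  calc ‖aeval (Tm u v) P w‖ ≤ ‖aeval (Tm u v) P‖ * ‖w‖ := ContinuousLinearMap.le_opNorm _ _
    _ ≤ _ := by gcongr

theorem Om_affine (T : H →L[ℂ] H) (m c : ℂ) {q : ℂ} (hq0 : q ≠ 0) {w : ℂ} (hw : w ∈ Om T q) :
    m + c * w ∈ Om (m • (1 : H →L[ℂ] H) + c • T) q := by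
  obtain ⟨x, y, hx, hy, hxy, rfl⟩ := hw
  refine ⟨x, y, hx, hy, hxy, ?_⟩
  have : (m • (1 : H →L[ℂ] H) + c • T) x = m • x + c • T x := by simp
  rw [this, inner_add_right, inner_smul_right, inner_smul_right, hxy]
  field_simp

theorem aeval_affine (T : H →L[ℂ] H) (m c : ℂ) (p : ℂ[X]) :
    aeval (m • (1 : H →L[ℂ] H) + c • T) p = aeval T (p.comp (C m + C c * X)) := by
  rw [aeval_comp]
  congr 1
  simp [Algebra.algebraMap_eq_smul_one]

/-- The bound for operators annihilated by a quadratic polynomial, vector form. -/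
theorem quad_vec [FiniteDimensional ℂ H] (h2 : 2 ≤ Module.finrank ℂ H) (T : H →L[ℂ] H) {q : ℂ}
    (hq0 : q ≠ 0) (hq1 : ‖q‖ ≤ 1) (P : ℂ[X]) (M : ℝ) (hM : ∀ w ∈ Om T q, ‖P.eval w‖ ≤ M)
    (hT : T * T = 0 ∨ T * T = 1) (x : H) :
    ‖aeval T P x‖ ≤ max 1 (2 * ‖q‖ / (1 + Real.sqrt (1 - ‖q‖ ^ 2))) * M * ‖x‖ := by
  -- eigenvectors
  have heig : ∀ (x : H) (l : ℂ), T x = l • x →
      ‖aeval T P x‖ ≤ max 1 (2 * ‖q‖ / (1 + Real.sqrt (1 - ‖q‖ ^ 2))) * M * ‖x‖ := by
    intro x l hl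
    by_cases hx : x = 0
    · rw [hx]; simp
    have h1 := eigen_bound h2 T hq0 hq1 P M hM hx hl
    have hM0 : 0 ≤ M := (norm_nonneg _).trans h1
    rw [aeval_eigen T hl, norm_smul]
    calc ‖P.eval l‖ * ‖x‖ ≤ (1 * M) * ‖x‖ := by rw [one_mul]; gcongr
      _ ≤ _ := by gcongr; exact le_max_left _ _
  rcases hT with hT | hT
  · have hTT : ∀ y, T (T y) = 0 := by
      intro y
      have : (T * T) y = 0 := by rw [hT]; rfl
      exact this
    by_cases hTx : T x = 0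
    · exact heig x 0 (by rw [hTx, zero_smul])
    have hn : 0 < ‖T x‖ := norm_pos_iff.mpr hTx
    have hnc : ((‖T x‖ : ℝ) : ℂ) ≠ 0 := by exact_mod_cast hn.ne'
    set e2 : H := ((‖T x‖⁻¹ : ℝ) : ℂ) • T x with he2d
    have he2 : ‖e2‖ = 1 := by
      rw [he2d, norm_smul, Complex.norm_real, norm_inv, norm_norm, inv_mul_cancel₀ hn.ne']
    have hTe2 : T e2 = 0 := by rw [he2d, map_smul, hTT, smul_zero]
    have hi2 : inner ℂ e2 e2 = 1 := by rw [inner_self_real, he2]; simp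
    set r : H := x - inner ℂ e2 x • e2 with hr
    have hTr : T r = T x := by rw [hr, map_sub, map_smul, hTe2, smul_zero, sub_zero]
    have hr0 : r ≠ 0 := by
      intro h; apply hTx; rw [← hTr, h, map_zero]
    have hrn : 0 < ‖r‖ := norm_pos_iff.mpr hr0
    have hrc : ((‖r‖ : ℝ) : ℂ) ≠ 0 := by exact_mod_cast hrn.ne'
    have h2r : inner ℂ e2 r = 0 := by
      rw [hr, inner_sub_right, inner_smul_right, hi2, mul_one, sub_self]
    have hr2 : inner ℂ r e2 = 0 := by rw [← inner_conj_symm, h2r, map_zero]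
    set e1 : H := ((‖r‖⁻¹ : ℝ) : ℂ) • r with he1d
    have he1 : ‖e1‖ = 1 := by
      rw [he1d, norm_smul, Complex.norm_real, norm_inv, norm_norm, inv_mul_cancel₀ hrn.ne']
    have h12 : inner ℂ e1 e2 = 0 := by rw [he1d, inner_smul_left, hr2, mul_zero]
    have hT1 : T e1 = ((‖T x‖ / ‖r‖ : ℝ) : ℂ) • e2 := by
      rw [he1d, map_smul, hTr, he2d, smul_smul]
      congr 1
      push_cast
      field_simp
    have hT2 : T e2 = ((0 : ℝ) : ℂ) • e1 := by rw [hTe2]; simp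
    have hx : x = ((‖r‖ : ℝ) : ℂ) • e1 + (inner ℂ e2 x) • e2 := by
      rw [he1d, smul_smul]
      have : ((‖r‖ : ℝ) : ℂ) * ((‖r‖⁻¹ : ℝ) : ℂ) = 1 := by push_cast; field_simp
      rw [this, one_smul, hr]; abel
    have h := plane_bound h2 T hq0 hq1 P M hM he1 he2 h12 le_rfl (by positivity)
      (by positivity) hT1 hT2 ((‖r‖ : ℝ) : ℂ) (inner ℂ e2 x)
    rw [← hx] at h
    exact h
  · have hTT : ∀ y, T (T y) = y := by
      intro y
      have : (T * T) y = y := by rw [hT]; rfl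
      exact this
    set xp : H := (1 / 2 : ℂ) • (x + T x) with hxp
    set xm : H := (1 / 2 : ℂ) • (x - T x) with hxm
    have hTp : T xp = xp := by rw [hxp, map_smul, map_add, hTT, add_comm]
    have hTm : T xm = -xm := by rw [hxm, map_smul, map_sub, hTT, ← smul_neg]; congr 1; abel
    have hsum : x = xp + xm := by
      rw [hxp, hxm, ← smul_add]
      have : x + T x + (x - T x) = (2 : ℂ) • x := by rw [two_smul]; abel
      rw [this, smul_smul]; norm_num
    by_cases hp0 : xp = 0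
    · refine heig x (-1) ?_
      rw [hsum, hp0, zero_add, hTm]; simp
    by_cases hm0 : xm = 0
    · refine heig x 1 ?_
      rw [hsum, hm0, add_zero, hTp]; simp
    have hpn : 0 < ‖xp‖ := norm_pos_iff.mpr hp0
    have hmn : 0 < ‖xm‖ := norm_pos_iff.mpr hm0
    have hpc : ((‖xp‖ : ℝ) : ℂ) ≠ 0 := by exact_mod_cast hpn.ne'
    have hmc : ((‖xm‖ : ℝ) : ℂ) ≠ 0 := by exact_mod_cast hmn.ne'
    -- a phase making the inner product real and nonnegative
    obtain ⟨ε, hε, κ, hκ0, hκ⟩ : ∃ ε : ℂ, ‖ε‖ = 1 ∧ ∃ κ : ℝ, 0 ≤ κ ∧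
        ε * inner ℂ xp xm = (κ : ℂ) := by
      by_cases hc : inner ℂ xp xm = 0
      · exact ⟨1, by simp, 0, le_rfl, by rw [hc]; simp⟩
      · have hcn : 0 < ‖inner ℂ xp xm‖ := norm_pos_iff.mpr hc
        refine ⟨(starRingEnd ℂ) (inner ℂ xp xm) / ((‖inner ℂ xp xm‖ : ℝ) : ℂ), ?_,
          ‖inner ℂ xp xm‖, hcn.le, ?_⟩
        · rw [norm_div, RCLike.norm_conj, Complex.norm_real, norm_norm, div_self hcn.ne']
        · have hcc : ((‖inner ℂ xp xm‖ : ℝ) : ℂ) ≠ 0 := by exact_mod_cast hcn.ne'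
          rw [div_mul_eq_mul_div, mul_comm ((starRingEnd ℂ) _), Complex.mul_conj,
            Complex.normSq_eq_norm_sq]
          push_cast
          field_simp
    have hε0 : ε ≠ 0 := by intro h; rw [h] at hε; simp at hε
    set up : H := ((‖xp‖⁻¹ : ℝ) : ℂ) • xp with hup
    set um : H := (ε * ((‖xm‖⁻¹ : ℝ) : ℂ)) • xm with hum
    have hupn : ‖up‖ = 1 := by
      rw [hup, norm_smul, Complex.norm_real, norm_inv, norm_norm, inv_mul_cancel₀ hpn.ne']
    have humn : ‖um‖ = 1 := by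
      rw [hum, norm_smul, norm_mul, hε, one_mul, Complex.norm_real, norm_inv, norm_norm,
        inv_mul_cancel₀ hmn.ne']
    have hTup : T up = up := by rw [hup, map_smul, hTp]
    have hTum : T um = -um := by rw [hum, map_smul, hTm, smul_neg]
    set k : ℝ := ‖xp‖⁻¹ * ‖xm‖⁻¹ * κ with hk
    have hk0 : 0 ≤ k := by positivity
    have hin : inner ℂ up um = (k : ℂ) := by
      rw [hup, hum, inner_smul_left, inner_smul_right, Complex.conj_ofReal, hk]
      push_cast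
      rw [← hκ]; ring
    have hin' : inner ℂ um up = (k : ℂ) := by rw [← inner_conj_symm, hin, Complex.conj_ofReal]
    have hiup : inner ℂ up up = 1 := by rw [inner_self_real, hupn]; simp
    have hium : inner ℂ um um = 1 := by rw [inner_self_real, humn]; simp
    set f : H := up + um with hf
    set g : H := up - um with hg
    have hTf : T f = g := by rw [hf, map_add, hTup, hTum, hg]; abel
    have hTg : T g = f := by rw [hg, map_sub, hTup, hTum, hf]; abel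
    have hg0 : g ≠ 0 := by
      intro h
      have h3 : f = 0 := by rw [← hTg, h, map_zero]
      have h4 : (2 : ℂ) • up = f + g := by rw [hf, hg, two_smul]; abel
      rw [h3, h, add_zero] at h4
      have h5 : up = 0 := by
        rcases smul_eq_zero.mp h4 with h6 | h6
        · norm_num at h6
        · exact h6
      rw [h5] at hupn; simp at hupn
    have hf0 : f ≠ 0 := by
      intro h; apply hg0; rw [← hTf, h, map_zero]
    have hfn : 0 < ‖f‖ := norm_pos_iff.mpr hf0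
    have hgn : 0 < ‖g‖ := norm_pos_iff.mpr hg0
    have hfc : ((‖f‖ : ℝ) : ℂ) ≠ 0 := by exact_mod_cast hfn.ne'
    have hgc : ((‖g‖ : ℝ) : ℂ) ≠ 0 := by exact_mod_cast hgn.ne'
    have hgf : inner ℂ g f = 0 := by
      rw [hf, hg, inner_add_right, inner_sub_left, inner_sub_left, hin, hin', hiup, hium]; ring
    have hle : ‖g‖ ≤ ‖f‖ := by
      apply le_of_sq_le_sq _ hfn.le
      rw [hf, hg, @norm_sub_sq ℂ, @norm_add_sq ℂ, hin]
      simp only [RCLike.re_to_complex, Complex.ofReal_re]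
      linarith
    set e1 : H := ((‖g‖⁻¹ : ℝ) : ℂ) • g with he1d
    set e2 : H := ((‖f‖⁻¹ : ℝ) : ℂ) • f with he2d
    have he1 : ‖e1‖ = 1 := by
      rw [he1d, norm_smul, Complex.norm_real, norm_inv, norm_norm, inv_mul_cancel₀ hgn.ne']
    have he2 : ‖e2‖ = 1 := by
      rw [he2d, norm_smul, Complex.norm_real, norm_inv, norm_norm, inv_mul_cancel₀ hfn.ne']
    have h12 : inner ℂ e1 e2 = 0 := by
      rw [he1d, he2d, inner_smul_left, inner_smul_right, hgf, mul_zero, mul_zero]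
    have hT1 : T e1 = ((‖f‖ / ‖g‖ : ℝ) : ℂ) • e2 := by
      rw [he1d, map_smul, hTg, he2d, smul_smul]
      congr 1
      push_cast
      field_simp
    have hT2 : T e2 = ((‖g‖ / ‖f‖ : ℝ) : ℂ) • e1 := by
      rw [he2d, map_smul, hTf, he1d, smul_smul]
      congr 1
      push_cast
      field_simp
    have hle2 : ‖g‖ / ‖f‖ ≤ ‖f‖ / ‖g‖ := by
      rw [div_le_div_iff₀ hfn hgn]
      exact mul_le_mul hle hle hgn.le hfn.le
    have hfe : f = ((‖f‖ : ℝ) : ℂ) • e2 := by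
      rw [he2d, smul_smul]
      have : ((‖f‖ : ℝ) : ℂ) * ((‖f‖⁻¹ : ℝ) : ℂ) = 1 := by push_cast; field_simp
      rw [this, one_smul]
    have hge : g = ((‖g‖ : ℝ) : ℂ) • e1 := by
      rw [he1d, smul_smul]
      have : ((‖g‖ : ℝ) : ℂ) * ((‖g‖⁻¹ : ℝ) : ℂ) = 1 := by push_cast; field_simp
      rw [this, one_smul]
    have hxpe : xp = ((‖xp‖ : ℝ) : ℂ) • up := by
      rw [hup, smul_smul]
      have : ((‖xp‖ : ℝ) : ℂ) * ((‖xp‖⁻¹ : ℝ) : ℂ) = 1 := by push_cast; field_simp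
      rw [this, one_smul]
    have hxme : xm = (((‖xm‖ : ℝ) : ℂ) * ε⁻¹) • um := by
      rw [hum, smul_smul]
      have : ((‖xm‖ : ℝ) : ℂ) * ε⁻¹ * (ε * ((‖xm‖⁻¹ : ℝ) : ℂ)) = 1 := by
        push_cast; field_simp
      rw [this, one_smul]
    have hupe : up = (1 / 2 : ℂ) • (f + g) := by
      rw [hf, hg]
      have : up + um + (up - um) = (2 : ℂ) • up := by rw [two_smul]; abel
      rw [this, smul_smul]; norm_num
    have hume : um = (1 / 2 : ℂ) • (f - g) := by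
      rw [hf, hg]
      have : up + um - (up - um) = (2 : ℂ) • um := by rw [two_smul]; abel
      rw [this, smul_smul]; norm_num
    set α : ℂ := ((‖xp‖ : ℝ) : ℂ) with hα
    set β : ℂ := ((‖xm‖ : ℝ) : ℂ) * ε⁻¹ with hβ
    have hx : x = ((α - β) * (1 / 2) * ((‖g‖ : ℝ) : ℂ)) • e1 +
        ((α + β) * (1 / 2) * ((‖f‖ : ℝ) : ℂ)) • e2 := by
      rw [mul_smul _ ((‖g‖ : ℝ) : ℂ), mul_smul _ ((‖f‖ : ℝ) : ℂ), ← hge, ← hfe]
      conv_lhs => rw [hsum, hxpe, hxme, hupe, hume]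
      module
    have h := plane_bound h2 T hq0 hq1 P M hM he1 he2 h12 (by positivity) (by positivity)
      hle2 hT1 hT2 ((α - β) * (1 / 2) * ((‖g‖ : ℝ) : ℂ)) ((α + β) * (1 / 2) * ((‖f‖ : ℝ) : ℂ))
    rw [← hx] at h
    exact h

/-- Q1 for operators annihilated by a polynomial of degree two. -/
theorem quad_main [FiniteDimensional ℂ H] (h2 : 2 ≤ Module.finrank ℂ H) (A : H →L[ℂ] H) {q : ℂ}
    (hq0 : q ≠ 0) (hq1 : ‖q‖ ≤ 1) (a b : ℂ)
    (hA : (A - a • (1 : H →L[ℂ] H)) * (A - b • (1 : H →L[ℂ] H)) = 0)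
    (p : ℂ[X]) (M : ℝ) (hM : ∀ w ∈ Om A q, ‖p.eval w‖ ≤ M) :
    ‖aeval A p‖ ≤ max 1 (2 * ‖q‖ / (1 + Real.sqrt (1 - ‖q‖ ^ 2))) * M := by
  have hM0 : 0 ≤ M := by
    obtain ⟨x, hx⟩ : ∃ x : H, x ≠ 0 := by
      have : Nontrivial H := by
        apply Module.nontrivial_of_finrank_pos (R := ℂ); omega
      exact exists_ne 0
    have hx1 : ‖((‖x‖⁻¹ : ℝ) : ℂ) • x‖ = 1 := by
      rw [norm_smul, Complex.norm_real, norm_inv, norm_norm, inv_mul_cancel₀
        (norm_ne_zero_iff.mpr hx)]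
    have := disc_bound h2 A hq0 hq1 p M hM hx1 _ (by rw [sub_self, norm_zero]; positivity)
    exact (norm_nonneg _).trans this
  obtain ⟨m, c, T, hAT, hT⟩ : ∃ (m c : ℂ) (T : H →L[ℂ] H), A = m • (1 : H →L[ℂ] H) + c • T ∧
      (T * T = 0 ∨ T * T = 1) := by
    have hexp : (A - ((a + b) / 2) • (1 : H →L[ℂ] H)) * (A - ((a + b) / 2) • (1 : H →L[ℂ] H)) =
        (((a - b) / 2) ^ 2) • (1 : H →L[ℂ] H) := by
      have h3 : (A - ((a + b) / 2) • (1 : H →L[ℂ] H)) * (A - ((a + b) / 2) • (1 : H →L[ℂ] H)) =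
          (A - a • (1 : H →L[ℂ] H)) * (A - b • (1 : H →L[ℂ] H)) +
          (((a - b) / 2) ^ 2) • (1 : H →L[ℂ] H) := by
        simp only [sub_mul, mul_sub, smul_mul_assoc, mul_smul_comm, one_mul, mul_one]
        module
      rw [h3, hA, zero_add]
    by_cases hab : a = b
    · refine ⟨(a + b) / 2, 1, A - ((a + b) / 2) • (1 : H →L[ℂ] H), ?_, Or.inl ?_⟩
      · rw [one_smul]; abel
      · rw [hexp, hab]; simp
    · have hd : (a - b) / 2 ≠ 0 := div_ne_zero (sub_ne_zero.mpr hab) two_ne_zero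
      refine ⟨(a + b) / 2, (a - b) / 2,
        ((a - b) / 2)⁻¹ • (A - ((a + b) / 2) • (1 : H →L[ℂ] H)), ?_, Or.inr ?_⟩
      · rw [smul_smul, mul_inv_cancel₀ hd, one_smul]; abel
      · rw [smul_mul_smul_comm, hexp, smul_smul]
        have : ((a - b) / 2)⁻¹ * ((a - b) / 2)⁻¹ * ((a - b) / 2) ^ 2 = 1 := by field_simp
        rw [this, one_smul]
  have hMT : ∀ w ∈ Om T q, ‖(p.comp (C m + C c * X)).eval w‖ ≤ M := by
    intro w hw
    rw [eval_comp]
    have h3 := hM _ (hAT ▸ Om_affine T m c hq0 hw)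
    simpa using h3
  rw [hAT, aeval_affine]
  apply ContinuousLinearMap.opNorm_le_bound _ (by positivity)
  intro x
  exact quad_vec h2 T hq0 hq1 _ M hMT hT x

end Pool.Agent.Q169.CZ
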