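import Pool.Agent.Q169.CZ.Small

set_option autoImplicit false
open Complex Metric Filter Topology Polynomial

namespace Pool.Agent.Q169.CZ

/-- Maximum principle on a filled ellipse. -/
theorem eval_le_of_ellipse (p : ℂ[X]) (a b M : ℝ) (ha : 0 < a) (hb : 0 < b)
    (h : ∀ x y : ℝ, x ^ 2 + y ^ 2 = 1 → ‖p.eval (⟨a * x, b * y⟩ : ℂ)‖ ≤ M) (z : ℂ)
    (hz : (z.re / a) ^ 2 + (z.im / b) ^ 2 ≤ 1) : ‖p.eval z‖ ≤ M := by
  have hbd : ∀ z : ℂ, (z.re / a) ^ 2 + (z.im / b) ^ 2 = 1 → ‖p.eval z‖ ≤ M := by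
    intro z hz
    have h1 := h (z.re / a) (z.im / b) hz
    have h2 : (⟨a * (z.re / a), b * (z.im / b)⟩ : ℂ) = z := by
      apply Complex.ext
      · simp; field_simp
      · simp; field_simp
    rwa [h2] at h1
  rcases hz.eq_or_lt with h1 | h1
  · exact hbd z h1
  · set f : ℂ → ℝ := fun z => (z.re / a) ^ 2 + (z.im / b) ^ 2 with hf
    have hfc : Continuous f := by fun_prop
    refine Complex.norm_le_of_forall_mem_frontier_norm_le (f := fun z => p.eval z)
      (U := {z | f z < 1}) ?_ p.differentiable.diffContOnCl ?_ (z := z) (subset_closure h1)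
    · rw [isBounded_iff_forall_norm_le]
      refine ⟨a + b, fun w hw => ?_⟩
      have hw' : f w < 1 := hw
      have h3 : (w.re / a) ^ 2 ≤ 1 := by
        have := sq_nonneg (w.im / b)
        simp only [hf] at hw'; linarith
      have h4 : (w.im / b) ^ 2 ≤ 1 := by
        have := sq_nonneg (w.re / a)
        simp only [hf] at hw'; linarith
      have h5 : |w.re| ≤ a := by
        have := (sq_le_one_iff_abs_le_one _).mp h3
        rw [abs_div, abs_of_pos ha, div_le_one ha] at this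
        exact this
      have h6 : |w.im| ≤ b := by
        have := (sq_le_one_iff_abs_le_one _).mp h4
        rw [abs_div, abs_of_pos hb, div_le_one hb] at this
        exact this
      exact (Complex.norm_le_abs_re_add_abs_im w).trans (add_le_add h5 h6)
    · intro w hw
      have : w ∈ {b | f b = 1} := frontier_lt_subset_eq hfc continuous_const hw
      exact hbd w this

/-- The cubic maps the circle of radius `R` into the ellipse. -/
theorem cubic_mem (R D x y : ℝ) (hR : 0 < R) (hD : 0 ≤ D) (h4 : 4 * D ≤ R)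
    (hxy : x ^ 2 + y ^ 2 = 1) :
    ((R * ((1 - 4 * (D / R) ^ 2) * x + (D / R) * (x ^ 3 - 3 * x * y ^ 2))) / (R + D)) ^ 2 +
      ((R * ((1 - 4 * (D / R) ^ 2) * y + (D / R) * (3 * x ^ 2 * y - y ^ 3))) / (R - D)) ^ 2 ≤ 1 := by
  set C := D / R with hC
  have hDC : D = C * R := by rw [hC]; field_simp
  have hC0 : 0 ≤ C := div_nonneg hD hR.le
  have hC1 : C ≤ 1 / 4 := by
    rw [hC, div_le_iff₀ hR]; linarith
  clear_value C
  have hp : 0 < 1 + C := by linarith
  have hm : 0 < 1 - C := by linarith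
  have e1 : (R * ((1 - 4 * C ^ 2) * x + C * (x ^ 3 - 3 * x * y ^ 2))) / (R + D) =
      (x * (1 + C - 4 * C ^ 2 - 4 * C * y ^ 2)) / (1 + C) := by
    rw [hDC]
    have hx2 : x ^ 2 = 1 - y ^ 2 := by linarith
    have h1 : x ^ 3 = x * (1 - y ^ 2) := by rw [← hx2]; ring
    rw [h1]
    have h2 : R + C * R ≠ 0 := by nlinarith
    field_simp
    ring
  have e2 : (R * ((1 - 4 * C ^ 2) * y + C * (3 * x ^ 2 * y - y ^ 3))) / (R - D) =
      (y * (1 + 3 * C - 4 * C ^ 2 - 4 * C * y ^ 2)) / (1 - C) := by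
    rw [hDC]
    have hx2 : x ^ 2 = 1 - y ^ 2 := by linarith
    rw [hx2]
    have h2 : R - C * R ≠ 0 := by
      have : R - C * R = R * (1 - C) := by ring
      rw [this]; positivity
    field_simp
    ring
  rw [e1, e2, div_pow, div_pow, div_add_div _ _ (by positivity) (by positivity),
    div_le_one (by positivity)]
  have hy1 : y ^ 2 ≤ 1 := by nlinarith [sq_nonneg x]
  have hx2 : x ^ 2 = 1 - y ^ 2 := by linarith
  rw [mul_pow, mul_pow, hx2]
  set s := y ^ 2 with hs
  have hkey : ((1 - s) * (1 + C - 4 * C ^ 2 - 4 * C * s) ^ 2 * (1 - C) ^ 2 +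
      (1 + C) ^ 2 * (s * (1 + 3 * C - 4 * C ^ 2 - 4 * C * s) ^ 2)) -
      (1 + C) ^ 2 * (1 - C) ^ 2 =
      -(32 * C ^ 2 * (s - (1 - C) / 2) ^ 2 * ((1 - C) * (1 + 2 * C) - 2 * C * s)) := by ring
  have hpos : 0 ≤ 32 * C ^ 2 * (s - (1 - C) / 2) ^ 2 * ((1 - C) * (1 + 2 * C) - 2 * C * s) := by
    apply mul_nonneg (by positivity)
    nlinarith
  linarith

end Pool.Agent.Q169.CZ
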