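import Mathlib
import Pool.Agent.H640R2.PhaseMuC

set_option autoImplicit false
open Complex Metric Filter Topology

namespace Pool.Agent.Q169.CZ

variable {H : Type*} [NormedAddCommGroup H] [InnerProductSpace ℂ H]

theorem norm_attained [FiniteDimensional ℂ H] [Nontrivial H] (T : H →L[ℂ] H) :
    ∃ x : H, ‖x‖ = 1 ∧ ‖T x‖ = ‖T‖ := by
  have : ProperSpace H := FiniteDimensional.proper ℂ H
  obtain ⟨x0, hx0⟩ := exists_norm_eq H zero_le_one
  obtain ⟨x, hx, hmax⟩ := (isCompact_sphere (0 : H) 1).exists_isMaxOn (f := fun x => ‖T x‖)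
    ⟨x0, by simpa using hx0⟩ (by fun_prop)
  have hx1 : ‖x‖ = 1 := by simpa using hx
  refine ⟨x, hx1, le_antisymm (T.unit_le_opNorm x hx1.le) ?_⟩
  apply T.opNorm_le_bound (norm_nonneg _)
  intro y
  by_cases hy : y = 0
  · simp [hy]
  have hyn : ‖y‖ ≠ 0 := norm_ne_zero_iff.mpr hy
  have h1 : ‖((‖y‖⁻¹ : ℝ) : ℂ) • y‖ = 1 := by
    rw [norm_smul, Complex.norm_real, norm_inv, norm_norm, inv_mul_cancel₀ hyn]
  have h2 : ‖T (((‖y‖⁻¹ : ℝ) : ℂ) • y)‖ ≤ ‖T x‖ := hmax (by simpa using h1)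
  rw [map_smul, norm_smul, Complex.norm_real, norm_inv, norm_norm, inv_mul_le_iff₀
    (norm_pos_iff.mpr hy)] at h2
  linarith [mul_comm ‖T x‖ ‖y‖]

/-- the vectors at which an operator attains its norm form a subspace -/
def maxSpace (T : H →L[ℂ] H) : Submodule ℂ H where
  carrier := {x | ‖T x‖ = ‖T‖ * ‖x‖}
  zero_mem' := by simp
  add_mem' := by
    intro x y hx hy
    simp only [Set.mem_ofPred_eq] at hx hy ⊢
    have h1 := parallelogram_law_with_norm ℂ (T x) (T y)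
    have h2 := parallelogram_law_with_norm ℂ x y
    rw [← map_add, ← map_sub, hx, hy] at h1
    have h3 := T.le_opNorm (x + y)
    have h4 := T.le_opNorm (x - y)
    have h5 : ‖T (x - y)‖ * ‖T (x - y)‖ ≤ (‖T‖ * ‖x - y‖) * (‖T‖ * ‖x - y‖) :=
      mul_self_le_mul_self (norm_nonneg _) h4
    have h6 : (‖T‖ * ‖x + y‖) * (‖T‖ * ‖x + y‖) ≤ ‖T (x + y)‖ * ‖T (x + y)‖ := by
      have h7 : (‖T‖ * ‖T‖) * (‖x + y‖ ^ 2 + ‖x - y‖ ^ 2) =
        (‖T‖ * ‖T‖) * (2 * (‖x‖ ^ 2 + ‖y‖ ^ 2)) := by rw [h2]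
      nlinarith
    refine le_antisymm h3 ?_
    by_contra hlt
    push Not at hlt
    have := mul_self_lt_mul_self (norm_nonneg _) hlt
    linarith
  smul_mem' := by
    intro c x hx
    simp only [Set.mem_ofPred_eq] at hx ⊢
    rw [map_smul, norm_smul, norm_smul, hx]; ring

theorem mem_maxSpace {T : H →L[ℂ] H} {x : H} : x ∈ maxSpace T ↔ ‖T x‖ = ‖T‖ * ‖x‖ := Iff.rfl

theorem inner_self_real (u : H) : inner ℂ u u = ((‖u‖ ^ 2 : ℝ) : ℂ) := by
  rw [inner_self_eq_norm_sq_to_K]; push_cast; rfl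

/-- Stampfli: if the origin is the best scalar approximation of `T`, then `T` attains its norm at a
unit vector `x` with `⟨T x, x⟩ = 0`. -/
theorem stampfli [FiniteDimensional ℂ H] [Nontrivial H] (T : H →L[ℂ] H)
    (hmin : ∀ c : ℂ, ‖T‖ ≤ ‖T - c • (1 : H →L[ℂ] H)‖) :
    ∃ x : H, ‖x‖ = 1 ∧ ‖T x‖ = ‖T‖ ∧ inner ℂ x (T x) = 0 := by
  have : ProperSpace H := FiniteDimensional.proper ℂ H
  set E := maxSpace T with hE
  let B : E →L[ℂ] E := E.orthogonalProjectionOnto ∘L T ∘L E.subtypeL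
  have hB : ∀ x : E, inner ℂ x (B x) = inner ℂ (x : H) (T x) := by
    intro x
    have h1 : inner ℂ x (B x) = inner ℂ (x : H) ((B x : E) : H) := rfl
    rw [h1]
    have h2 : ((B x : E) : H) = E.starProjection (T x) := rfl
    rw [h2, ← Submodule.inner_starProjection_left_eq_right,
      Submodule.starProjection_eq_self_iff.mpr x.2]
  have hconv := H640R2.PhaseMu.toeplitz_hausdorff B
  set W : Set ℂ := {z : ℂ | ∃ x : E, ‖x‖ = 1 ∧ inner ℂ x (B x) = z} with hW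
  have hcomp : IsCompact W := by
    have hs : IsCompact (sphere (0 : E) 1) := isCompact_sphere _ _
    have : W = (fun x : E => inner ℂ x (B x)) '' sphere (0 : E) 1 := by
      ext z; simp [hW]
    rw [this]
    exact hs.image (by fun_prop)
  by_cases h0 : (0 : ℂ) ∈ W
  · obtain ⟨x, hx, hx0⟩ := h0
    have hx1 : ‖(x : H)‖ = 1 := hx
    refine ⟨x, hx1, ?_, ?_⟩
    · have := mem_maxSpace.mp x.2
      rw [this, hx1, mul_one]
    · rw [← hB, hx0]
  exfalso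
  obtain ⟨f, u, hfu, hfW⟩ := geometric_hahn_banach_point_closed hconv hcomp.isClosed h0
  rw [map_zero] at hfu
  set e : ℂ := (f 1 : ℂ) - (f I : ℂ) * I with he
  have hfe : ∀ z : ℂ, f z = (e * z).re := by
    intro z
    have h1 : z = z.re • (1 : ℂ) + z.im • I := by
      apply Complex.ext <;> simp
    have h2 : f z = z.re * f 1 + z.im * f I := by
      conv_lhs => rw [h1]
      rw [map_add, map_smul, map_smul]; rfl
    rw [h2, he]
    simp
    ring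
  -- the perturbed operators
  have hex : ∀ n : ℕ, ∃ x : H, ‖x‖ = 1 ∧
      ‖T‖ ≤ ‖(T - ((1 / ((n : ℝ) + 1) : ℝ) : ℂ) • ((starRingEnd ℂ) e • (1 : H →L[ℂ] H))) x‖ := by
    intro n
    obtain ⟨x, hx, hxn⟩ := norm_attained
      (T - ((1 / ((n : ℝ) + 1) : ℝ) : ℂ) • ((starRingEnd ℂ) e • (1 : H →L[ℂ] H)))
    refine ⟨x, hx, ?_⟩
    rw [hxn, smul_smul]
    exact hmin _
  choose x hx1 hxn using hex
  obtain ⟨a, ha, φ, hφ, hlim⟩ := (isCompact_sphere (0 : H) 1).tendsto_subseq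
    (x := x) (fun n => by simpa using hx1 n)
  have ha1 : ‖a‖ = 1 := by simpa using ha
  have hexp : ∀ n : ℕ, ‖T‖ ^ 2 ≤ ‖T (x n)‖ ^ 2 -
      2 * (1 / ((n : ℝ) + 1)) * (e * inner ℂ (x n) (T (x n))).re +
      (1 / ((n : ℝ) + 1)) ^ 2 * ‖e‖ ^ 2 := by
    intro n
    have h1 : ‖T‖ ^ 2 ≤
      ‖(T - ((1 / ((n : ℝ) + 1) : ℝ) : ℂ) • ((starRingEnd ℂ) e • (1 : H →L[ℂ] H))) (x n)‖ ^ 2 := by
      gcongr; exact hxn n
    set s : ℝ := 1 / ((n : ℝ) + 1) with hs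
    have h2 : (T - (s : ℂ) • ((starRingEnd ℂ) e • (1 : H →L[ℂ] H))) (x n) =
        T (x n) - ((s : ℂ) * (starRingEnd ℂ) e) • x n := by
      simp [smul_smul]
    rw [h2, @norm_sub_sq ℂ] at h1
    have h3 : RCLike.re (inner ℂ (T (x n)) (((s : ℂ) * (starRingEnd ℂ) e) • x n)) =
        s * (e * inner ℂ (x n) (T (x n))).re := by
      have h31 : inner ℂ (T (x n)) (((s : ℂ) * (starRingEnd ℂ) e) • x n) =
          (starRingEnd ℂ) ((s : ℂ) * (e * inner ℂ (x n) (T (x n)))) := by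
        rw [inner_smul_right, map_mul, map_mul, Complex.conj_ofReal, inner_conj_symm]
        ring
      rw [h31]
      show ((starRingEnd ℂ) ((s : ℂ) * (e * inner ℂ (x n) (T (x n))))).re = _
      rw [Complex.conj_re, Complex.re_ofReal_mul]
    rw [h3, norm_smul, norm_mul, RCLike.norm_conj, Complex.norm_real, hx1 n, mul_one, mul_pow,
      Real.norm_eq_abs, sq_abs] at h1
    linarith
  have hTx : ∀ n, ‖T (x n)‖ ≤ ‖T‖ := fun n => T.unit_le_opNorm _ (hx1 n).le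
  have hs0 : Tendsto (fun n : ℕ => 1 / (((φ n : ℕ) : ℝ) + 1)) atTop (𝓝 0) :=
    tendsto_one_div_add_atTop_nhds_zero_nat.comp hφ.tendsto_atTop
  have hg : Continuous (fun y : H => (e * inner ℂ y (T y)).re) := by fun_prop
  have hlimg : Tendsto (fun n => (e * inner ℂ (x (φ n)) (T (x (φ n)))).re) atTop
      (𝓝 (e * inner ℂ a (T a)).re) := (hg.tendsto a).comp hlim
  have hlimT : Tendsto (fun n => ‖T (x (φ n))‖ ^ 2) atTop (𝓝 (‖T a‖ ^ 2)) := by
    have h1 : Continuous (fun y : H => ‖T y‖ ^ 2) := by fun_prop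
    exact (h1.tendsto a).comp hlim
  have hup : ‖T‖ ^ 2 ≤ ‖T a‖ ^ 2 := by
    have h1 : Tendsto (fun n => ‖T (x (φ n))‖ ^ 2 -
      2 * (1 / (((φ n : ℕ) : ℝ) + 1)) * (e * inner ℂ (x (φ n)) (T (x (φ n)))).re +
      (1 / (((φ n : ℕ) : ℝ) + 1)) ^ 2 * ‖e‖ ^ 2) atTop
      (𝓝 (‖T a‖ ^ 2 - 2 * 0 * (e * inner ℂ a (T a)).re + 0 ^ 2 * ‖e‖ ^ 2)) :=
      (hlimT.sub ((hs0.const_mul 2).mul hlimg)).add ((hs0.pow 2).mul_const _)
    have h2 := ge_of_tendsto' h1 (fun n => hexp (φ n))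
    simpa using h2
  have haE : a ∈ E := by
    rw [hE, mem_maxSpace, ha1, mul_one]
    apply le_antisymm (T.unit_le_opNorm _ ha1.le)
    exact (pow_le_pow_iff_left₀ (norm_nonneg _) (norm_nonneg _) two_ne_zero).mp hup
  have hre : (e * inner ℂ a (T a)).re ≤ 0 := by
    have h1 : ∀ n, (e * inner ℂ (x (φ n)) (T (x (φ n)))).re ≤
        (1 / (((φ n : ℕ) : ℝ) + 1)) * (‖e‖ ^ 2 / 2) := by
      intro n
      have h2 := hexp (φ n)
      have h3 : ‖T (x (φ n))‖ ^ 2 ≤ ‖T‖ ^ 2 := by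
        have := hTx (φ n); gcongr
      have h4 : (0 : ℝ) < 1 / (((φ n : ℕ) : ℝ) + 1) := by positivity
      have h5 : 2 * (1 / (((φ n : ℕ) : ℝ) + 1)) * (e * inner ℂ (x (φ n)) (T (x (φ n)))).re ≤
          (1 / (((φ n : ℕ) : ℝ) + 1)) ^ 2 * ‖e‖ ^ 2 := by linarith
      have h6 : (1 / (((φ n : ℕ) : ℝ) + 1)) * (e * inner ℂ (x (φ n)) (T (x (φ n)))).re ≤
          (1 / (((φ n : ℕ) : ℝ) + 1)) * ((1 / (((φ n : ℕ) : ℝ) + 1)) * (‖e‖ ^ 2 / 2)) := by
        nlinarith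
      exact le_of_mul_le_mul_left h6 h4
    have h2 := le_of_tendsto_of_tendsto' hlimg (hs0.mul_const (‖e‖ ^ 2 / 2)) h1
    simpa using h2
  have hmem : inner ℂ a (T a) ∈ W := ⟨⟨a, haE⟩, ha1, hB ⟨a, haE⟩⟩
  have := hfW _ hmem
  rw [hfe] at this
  linarith

end Pool.Agent.Q169.CZ
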