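import Pool.Agent.Q169.CZ.VN
import Pool.Agent.Q169.CZ.Stampfli

set_option autoImplicit false
open Complex Metric Filter Topology Polynomial

namespace Pool.Agent.Q169.CZ

variable {H : Type*} [NormedAddCommGroup H] [InnerProductSpace ℂ H]

/-- The scaled `q`-numerical range of an operator. -/
def Om (A : H →L[ℂ] H) (q : ℂ) : Set ℂ :=
  {w | ∃ x y : H, ‖x‖ = 1 ∧ ‖y‖ = 1 ∧ inner ℂ y x = q ∧ w = inner ℂ y (A x) / q}

/-- Maximum principle for polynomials on closed discs. -/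
theorem eval_le_of_circle (p : ℂ[X]) (c : ℂ) (r M : ℝ) (hr : 0 ≤ r)
    (h : ∀ z : ℂ, ‖z - c‖ = r → ‖p.eval z‖ ≤ M) (z : ℂ) (hz : ‖z - c‖ ≤ r) : ‖p.eval z‖ ≤ M := by
  rcases hr.eq_or_lt with hr0 | hr0
  · exact h z (le_antisymm hz (by rw [← hr0]; exact norm_nonneg _))
  · refine Complex.norm_le_of_forall_mem_frontier_norm_le (f := fun z => p.eval z)
      (isBounded_ball (x := c) (r := r)) p.differentiable.diffContOnCl ?_ (z := z) ?_
    · intro w hw
      rw [frontier_ball _ hr0.ne'] at hw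
      exact h w (by simpa [dist_eq_norm] using hw)
    · rw [closure_ball _ hr0.ne']
      simpa [dist_eq_norm] using hz

/-- Points of the scaled `q`-numerical range coming from an orthonormal pair. -/
theorem mem_Om (A : H →L[ℂ] H) {q : ℂ} (hq0 : q ≠ 0) (hq1 : ‖q‖ ≤ 1) {x z : H} (hx : ‖x‖ = 1)
    (hz : ‖z‖ = 1) (hxz : inner ℂ z x = 0) (e : ℂ) (he : ‖e‖ = 1) :
    inner ℂ x (A x) + ((Real.sqrt (1 - ‖q‖ ^ 2) : ℝ) : ℂ) / q * e * inner ℂ z (A x) ∈ Om A q := by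
  set s : ℝ := Real.sqrt (1 - ‖q‖ ^ 2) with hs
  have hs2 : s ^ 2 = 1 - ‖q‖ ^ 2 := Real.sq_sqrt (by nlinarith [norm_nonneg q])
  have hxz' : inner ℂ x z = 0 := by rw [← inner_conj_symm, hxz, map_zero]
  refine ⟨x, (starRingEnd ℂ) q • x + ((s : ℂ) * (starRingEnd ℂ) e) • z, hx, ?_, ?_, ?_⟩
  · have h1 : ‖(starRingEnd ℂ) q • x + ((s : ℂ) * (starRingEnd ℂ) e) • z‖ ^ 2 = 1 := by
      rw [@norm_add_sq ℂ, inner_smul_left, inner_smul_right, hxz', norm_smul, norm_smul, hx, hz,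
        norm_mul, RCLike.norm_conj, RCLike.norm_conj, he, Complex.norm_real, Real.norm_eq_abs]
      simp only [mul_zero, mul_one, map_zero, add_zero, sq_abs]
      rw [hs2]; ring
    exact (pow_eq_one_iff_of_nonneg (norm_nonneg _) two_ne_zero).mp h1
  · rw [inner_add_left, inner_smul_left, inner_smul_left, hxz, inner_self_real, hx]
    simp
  · rw [inner_add_left, inner_smul_left, inner_smul_left]
    simp only [map_mul, Complex.conj_conj, Complex.conj_ofReal]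
    field_simp

theorem exists_orth [FiniteDimensional ℂ H] (h2 : 2 ≤ Module.finrank ℂ H) (x : H) :
    ∃ z : H, ‖z‖ = 1 ∧ inner ℂ z x = 0 := by
  set K : Submodule ℂ H := ℂ ∙ x
  have h1 : Module.finrank ℂ K ≤ 1 := by
    have := finrank_span_le_card (R := ℂ) ({x} : Set H)
    simpa using this
  have h3 : Module.finrank ℂ K + Module.finrank ℂ Kᗮ = Module.finrank ℂ H :=
    Submodule.finrank_add_finrank_orthogonal K
  have h4 : 0 < Module.finrank ℂ Kᗮ := by omega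
  obtain ⟨z, hz⟩ := (Module.finrank_pos_iff_exists_ne_zero).mp h4
  have hz0 : (z : H) ≠ 0 := by simpa using hz
  have hn : ‖(z : H)‖ ≠ 0 := norm_ne_zero_iff.mpr hz0
  refine ⟨((‖(z : H)‖⁻¹ : ℝ) : ℂ) • (z : H), ?_, ?_⟩
  · rw [norm_smul, Complex.norm_real, norm_inv, norm_norm, inv_mul_cancel₀ hn]
  · rw [inner_smul_left]
    have : inner ℂ (z : H) x = 0 :=
      (Submodule.mem_orthogonal' K z).mp z.2 x (Submodule.mem_span_singleton_self x)
    rw [this, mul_zero]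

/-- For a unit vector `x` the circle of radius `tau * dev x` about `⟨A x, x⟩` lies in `Om A q`,
hence polynomials bounded on `Om A q` are bounded on the closed disc. -/
theorem disc_bound [FiniteDimensional ℂ H] (h2 : 2 ≤ Module.finrank ℂ H) (A : H →L[ℂ] H) {q : ℂ}
    (hq0 : q ≠ 0) (hq1 : ‖q‖ ≤ 1) (p : ℂ[X]) (M : ℝ) (hM : ∀ w ∈ Om A q, ‖p.eval w‖ ≤ M)
    {x : H} (hx : ‖x‖ = 1) (w : ℂ)
    (hw : ‖w - inner ℂ x (A x)‖ ≤
      Real.sqrt (1 - ‖q‖ ^ 2) / ‖q‖ * ‖A x - inner ℂ x (A x) • x‖) : ‖p.eval w‖ ≤ M := by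
  set s : ℝ := Real.sqrt (1 - ‖q‖ ^ 2) with hs
  have hqn : 0 < ‖q‖ := norm_pos_iff.mpr hq0
  set d := A x - inner ℂ x (A x) • x with hd
  have hxd : inner ℂ x d = 0 := by
    rw [hd, inner_sub_right, inner_smul_right, inner_self_real, hx]; simp
  have hdx : inner ℂ d x = 0 := by rw [← inner_conj_symm, hxd, map_zero]
  -- a unit vector `z` orthogonal to `x` with `⟨A x, z⟩ = ‖d‖`
  obtain ⟨z, hz, hzx, hzA⟩ : ∃ z : H, ‖z‖ = 1 ∧ inner ℂ z x = 0 ∧
      inner ℂ z (A x) = ((‖d‖ : ℝ) : ℂ) := by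
    have hAx : A x = d + inner ℂ x (A x) • x := by rw [hd]; abel
    by_cases hd0 : d = 0
    · obtain ⟨z, hz, hzx⟩ := exists_orth h2 x
      refine ⟨z, hz, hzx, ?_⟩
      rw [hAx, hd0, inner_add_right, inner_smul_right, hzx]; simp
    · have hdn : ‖d‖ ≠ 0 := norm_ne_zero_iff.mpr hd0
      have hdn' : ((‖d‖ : ℝ) : ℂ) ≠ 0 := by exact_mod_cast hdn
      refine ⟨((‖d‖⁻¹ : ℝ) : ℂ) • d, ?_, ?_, ?_⟩
      · rw [norm_smul, Complex.norm_real, norm_inv, norm_norm, inv_mul_cancel₀ hdn]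
      · rw [inner_smul_left, hdx, mul_zero]
      · rw [inner_smul_left, hAx, inner_add_right, inner_smul_right, hdx, inner_self_real]
        simp only [Complex.conj_ofReal, mul_zero, add_zero]
        push_cast
        field_simp
  refine eval_le_of_circle p (inner ℂ x (A x)) (s / ‖q‖ * ‖d‖) M (by positivity) ?_ w hw
  intro v hv
  apply hM
  -- `v` is on the circle
  by_cases hsd : s / ‖q‖ * ‖d‖ = 0
  · have hv0 : v = inner ℂ x (A x) := by
      rw [hsd] at hv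
      exact sub_eq_zero.mp (norm_eq_zero.mp hv)
    have h := mem_Om A hq0 hq1 hx hz hzx 1 (by simp)
    rw [hzA] at h
    have h0 : ((s : ℝ) : ℂ) * ((‖d‖ : ℝ) : ℂ) = 0 := by
      rcases mul_eq_zero.mp hsd with h1 | h1
      · rcases div_eq_zero_iff.mp h1 with h3 | h3
        · rw [h3]; simp
        · exact absurd h3 hqn.ne'
      · rw [h1]; simp
    have h5 : ((s : ℝ) : ℂ) / q * 1 * ((‖d‖ : ℝ) : ℂ) = 0 := by
      rw [mul_one, div_mul_eq_mul_div, h0, zero_div]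
    rw [← hs, h5, add_zero] at h
    rw [hv0]; exact h
  · set u : ℂ := v - inner ℂ x (A x) with hu
    have hs0 : (s : ℂ) ≠ 0 := by
      intro h; apply hsd; have : s = 0 := by exact_mod_cast h
      rw [this]; simp
    have hd0 : ((‖d‖ : ℝ) : ℂ) ≠ 0 := by
      intro h; apply hsd; have : ‖d‖ = 0 := by exact_mod_cast h
      rw [this]; simp
    have he : ‖u * q / ((s : ℂ) * ((‖d‖ : ℝ) : ℂ))‖ = 1 := by
      rw [norm_div, norm_mul, norm_mul, hv, Complex.norm_real, Complex.norm_real, norm_norm,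
        Real.norm_of_nonneg (Real.sqrt_nonneg _), ← hs]
      have h1 : s ≠ 0 := by exact_mod_cast hs0
      have h3 : ‖d‖ ≠ 0 := by exact_mod_cast hd0
      field_simp
    have h := mem_Om A hq0 hq1 hx hz hzx _ he
    rw [hzA, ← hs] at h
    have h5 : inner ℂ x (A x) + (s : ℂ) / q * (u * q / ((s : ℂ) * ((‖d‖ : ℝ) : ℂ))) *
        ((‖d‖ : ℝ) : ℂ) = v := by
      rw [hu]; field_simp; ring
    rw [h5] at h
    exact h

theorem aeval_shift (A : H →L[ℂ] H) (c : ℂ) (p : ℂ[X]) :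
    aeval A p = aeval (A - c • (1 : H →L[ℂ] H)) (p.comp (X + C c)) := by
  rw [aeval_comp]
  congr 1
  simp [Algebra.algebraMap_eq_smul_one]

/-- existence of a best scalar approximation -/
theorem exists_best [Nontrivial H] (A : H →L[ℂ] H) :
    ∃ c : ℂ, ∀ c' : ℂ, ‖A - c • (1 : H →L[ℂ] H)‖ ≤ ‖A - c' • (1 : H →L[ℂ] H)‖ := by
  have hc : Continuous (fun c : ℂ => ‖A - c • (1 : H →L[ℂ] H)‖) := by fun_prop
  apply hc.exists_forall_le
  have h1 : ∀ c : ℂ, ‖c‖ - ‖A‖ ≤ ‖A - c • (1 : H →L[ℂ] H)‖ := by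
    intro c
    have h2 : ‖c • (1 : H →L[ℂ] H)‖ = ‖c‖ := by rw [norm_smul, norm_one, mul_one]
    have h3 := norm_sub_norm_le (c • (1 : H →L[ℂ] H)) A
    rw [h2, norm_sub_rev] at h3
    exact h3
  refine tendsto_atTop_mono h1 ?_
  exact tendsto_atTop_add_const_right _ _ (tendsto_norm_cocompact_atTop)

/-- The inequality with constant one for `|q| ≤ 1/√2`. -/
theorem small_q [FiniteDimensional ℂ H] (h2 : 2 ≤ Module.finrank ℂ H) (A : H →L[ℂ] H) {q : ℂ}
    (hq0 : q ≠ 0) (hq : ‖q‖ ^ 2 ≤ 1 / 2) (p : ℂ[X]) (M : ℝ)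
    (hM : ∀ w ∈ Om A q, ‖p.eval w‖ ≤ M) : ‖aeval A p‖ ≤ M := by
  have : CompleteSpace H := FiniteDimensional.complete ℂ H
  have hnt : Nontrivial H := by
    apply Module.nontrivial_of_finrank_pos (R := ℂ); omega
  have hqn : 0 < ‖q‖ := norm_pos_iff.mpr hq0
  have hq1 : ‖q‖ ≤ 1 := by nlinarith
  obtain ⟨c, hc⟩ := exists_best A
  set T := A - c • (1 : H →L[ℂ] H) with hT
  obtain ⟨x, hx, hxn, hx0⟩ := stampfli T (by
    intro c'
    have h3 := hc (c + c')
    rw [hT]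
    rw [add_smul, ← sub_sub] at h3
    exact h3)
  have hAx : inner ℂ x (A x) = c := by
    have h3 : T x = A x - c • x := by simp [hT]
    rw [h3, inner_sub_right, inner_smul_right, inner_self_real, hx] at hx0
    have := sub_eq_zero.mp hx0
    rw [this]; simp
  have hdev : ‖A x - inner ℂ x (A x) • x‖ = ‖T‖ := by
    rw [hAx, ← hxn]; simp [hT]
  have hball : ∀ w : ℂ, ‖w - c‖ ≤ ‖T‖ → ‖p.eval w‖ ≤ M := by
    intro w hw
    apply disc_bound h2 A hq0 hq1 p M hM hx w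
    rw [hdev, hAx]
    have h4 : 1 ≤ Real.sqrt (1 - ‖q‖ ^ 2) / ‖q‖ := by
      rw [le_div_iff₀ hqn, one_mul]
      apply Real.le_sqrt_of_sq_le
      linarith
    calc ‖w - c‖ ≤ 1 * ‖T‖ := by rw [one_mul]; exact hw
      _ ≤ _ := by gcongr
  have hM0 : 0 ≤ M := (norm_nonneg _).trans (hball c (by simp))
  rcases (norm_nonneg T).eq_or_lt with h0 | h0
  · have hT0 : T = 0 := norm_eq_zero.mp h0.symm
    rw [aeval_shift A c p, ← hT, hT0]
    have h5 : aeval (0 : H →L[ℂ] H) (p.comp (X + C c)) =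
        (p.eval c) • (1 : H →L[ℂ] H) := by
      have h6 : (0 : H →L[ℂ] H) = algebraMap ℂ (H →L[ℂ] H) 0 := by simp
      rw [h6, aeval_algebraMap_apply, Algebra.algebraMap_eq_smul_one]
      simp
    rw [h5, norm_smul, norm_one, mul_one]
    exact hball c (by simp)
  · rw [aeval_shift A c p, ← hT]
    apply vN T ‖T‖ h0 le_rfl _ M hM0
    intro z hz
    rw [eval_comp]
    apply hball
    simp [hz]

end Pool.Agent.Q169.CZ
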