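import Mathlib

set_option autoImplicit false
open Polynomial Complex Metric

namespace Pool.Agent.Q169.CZ

variable {H : Type*} [NormedAddCommGroup H] [InnerProductSpace ℂ H] [CompleteSpace H]

/-- polynomials of a unitary operator -/
theorem norm_aeval_unitary (U : H →L[ℂ] H) (hU : U ∈ unitary (H →L[ℂ] H)) (p : ℂ[X]) (M : ℝ)
    (hM : 0 ≤ M) (hp : ∀ z : ℂ, ‖z‖ = 1 → ‖p.eval z‖ ≤ M) : ‖aeval U p‖ ≤ M := by
  have hn : IsStarNormal U := ⟨by
    rw [commute_iff_eq, (Unitary.mem_iff.mp hU).1, (Unitary.mem_iff.mp hU).2]⟩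
  rw [← cfc_polynomial p U hn]
  refine norm_cfc_le hM (fun x hx => hp x ?_)
  rcases subsingleton_or_nontrivial (H →L[ℂ] H) with hs | hs
  · simp [spectrum.of_subsingleton] at hx
  · have := spectrum.subset_circle_of_unitary hU hx
    simpa using this

theorem isUnit_one_add_smul {P : H →L[ℂ] H} {z : ℂ} (h : ‖z • P‖ < 1) : IsUnit (1 + z • P) := by
  have := isUnit_one_sub_of_norm_lt_one (x := -(z • P)) (by rwa [norm_neg])
  simpa using this

/-- von Neumann inequality for an invertible strict contraction. -/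
theorem vN_aux (T : H →L[ℂ] H) (hT : ‖T‖ < 1) (hu : IsUnit T) (p : ℂ[X]) (M : ℝ)
    (hM : 0 ≤ M) (hp : ∀ z : ℂ, ‖z‖ = 1 → ‖p.eval z‖ ≤ M) : ‖aeval T p‖ ≤ M := by
  set P : H →L[ℂ] H := CFC.sqrt (star T * T) with hP
  have hTT : 0 ≤ star T * T := star_mul_self_nonneg T
  have hPP : P * P = star T * T := CFC.sqrt_mul_sqrt_self _ hTT
  have hP0 : 0 ≤ P := CFC.sqrt_nonneg _
  have hPs : star P = P := (IsSelfAdjoint.of_nonneg hP0).star_eq
  have hPn : ‖P‖ < 1 := by
    have h1 : ‖P‖ * ‖P‖ = ‖T‖ * ‖T‖ := by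
      rw [← CStarRing.norm_star_mul_self (x := P), hPs, hPP, CStarRing.norm_star_mul_self]
    nlinarith [norm_nonneg P, norm_nonneg T]
  have hPu : IsUnit P := by
    have h2 : IsUnit (P * P) := by
      rw [hPP]; exact (hu.star).mul hu
    exact ((Commute.refl P).isUnit_mul_iff.mp h2).1
  set W : H →L[ℂ] H := T * Ring.inverse P with hW
  have hiP : Ring.inverse P * P = 1 := Ring.inverse_mul_cancel _ hPu
  have hPi : P * Ring.inverse P = 1 := Ring.mul_inverse_cancel _ hPu
  have hWP : W * P = T := by rw [hW, mul_assoc, hiP, mul_one]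
  have hiPs : star (Ring.inverse P) = Ring.inverse P := by
    have h1 : star (Ring.inverse P) * P = 1 := by
      have := congrArg star hPi
      rwa [star_mul, hPs, star_one] at this
    calc star (Ring.inverse P) = star (Ring.inverse P) * (P * Ring.inverse P) := by
          rw [hPi, mul_one]
      _ = Ring.inverse P := by rw [← mul_assoc, h1, one_mul]
  have hWW : star W * W = 1 := by
    rw [hW, star_mul, hiPs]
    calc Ring.inverse P * star T * (T * Ring.inverse P)
        = Ring.inverse P * (star T * T) * Ring.inverse P := by simp only [mul_assoc]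
      _ = Ring.inverse P * (P * P) * Ring.inverse P := by rw [hPP]
      _ = (Ring.inverse P * P) * (P * Ring.inverse P) := by simp only [mul_assoc]
      _ = 1 := by rw [hiP, hPi, mul_one]
  have hWu : IsUnit W := by
    rw [hW]
    refine hu.mul ?_
    exact ⟨⟨Ring.inverse P, P, hiP, hPi⟩, rfl⟩
  have hWW' : W * star W = 1 := by
    obtain ⟨u, hu'⟩ := hWu
    have h1 : star W = ↑u⁻¹ := by
      have : star W * ↑u = 1 := by rw [hu']; exact hWW
      calc star W = star W * (↑u * ↑u⁻¹) := by simp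
        _ = ↑u⁻¹ := by rw [← mul_assoc, this, one_mul]
    rw [h1, ← hu']; simp
  -- the analytic family
  have hun : ∀ z : ℂ, ‖z‖ ≤ 1 → IsUnit (1 + z • P) := by
    intro z hz
    apply isUnit_one_add_smul
    rw [norm_smul]
    calc ‖z‖ * ‖P‖ ≤ 1 * ‖P‖ := by gcongr
      _ < 1 := by rw [one_mul]; exact hPn
  set G : ℂ → (H →L[ℂ] H) := fun z => W * ((P + z • 1) * Ring.inverse (1 + z • P)) with hG
  have hG0 : G 0 = T := by
    simp only [hG, zero_smul, add_zero, Ring.inverse_one, mul_one]
    exact hWP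
  have hGd : ∀ z : ℂ, ‖z‖ ≤ 1 → DifferentiableAt ℂ G z := by
    intro z hz
    have h1 : DifferentiableAt ℂ (fun z : ℂ => P + z • (1 : H →L[ℂ] H)) z := by fun_prop
    have h2 : DifferentiableAt ℂ (fun z : ℂ => (1 : H →L[ℂ] H) + z • P) z := by fun_prop
    have h3 : DifferentiableAt ℂ (fun z : ℂ => Ring.inverse ((1 : H →L[ℂ] H) + z • P)) z := by
      obtain ⟨u, hu'⟩ := hun z hz
      have h4 : DifferentiableAt ℂ (Ring.inverse : (H →L[ℂ] H) → _) (1 + z • P) := by
        rw [← hu']; exact differentiableAt_inverse (𝕜 := ℂ) u.isUnit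
      exact h4.comp z h2
    exact (differentiableAt_const W).mul (h1.mul h3)
  have hGu : ∀ z : ℂ, ‖z‖ = 1 → G z ∈ unitary (H →L[ℂ] H) := by
    intro z hz
    have hzz : (starRingEnd ℂ) z * z = 1 := by
      rw [mul_comm, Complex.mul_conj, Complex.normSq_eq_norm_sq, hz]; simp
    have hzc : ‖(starRingEnd ℂ) z‖ ≤ 1 := by rw [RCLike.norm_conj, hz]
    obtain ⟨u, hu'⟩ := hun z hz.le
    have e1 : Ring.inverse (1 + z • P) * (1 + z • P) = 1 := Ring.inverse_mul_cancel _ (hun z hz.le)
    have e2 : (1 + z • P) * Ring.inverse (1 + z • P) = 1 := Ring.mul_inverse_cancel _ (hun z hz.le)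
    have hst : star (1 + z • P) = 1 + (starRingEnd ℂ) z • P := by
      rw [star_add, star_one, star_smul, hPs]; rfl
    have hst2 : star (P + z • (1 : H →L[ℂ] H)) = P + (starRingEnd ℂ) z • 1 := by
      rw [star_add, star_smul, star_one, hPs]; rfl
    have hkey : (P + (starRingEnd ℂ) z • (1 : H →L[ℂ] H)) * (P + z • 1) =
        (1 + (starRingEnd ℂ) z • P) * (1 + z • P) := by
      simp only [mul_add, add_mul, smul_mul_assoc, mul_smul_comm, one_mul, mul_one, smul_add,
        smul_smul]
      rw [mul_comm z, hzz, one_smul, one_smul]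
      abel
    have hkey2 : (P + z • (1 : H →L[ℂ] H)) * (P + (starRingEnd ℂ) z • 1) =
        (1 + z • P) * (1 + (starRingEnd ℂ) z • P) := by
      simp only [mul_add, add_mul, smul_mul_assoc, mul_smul_comm, one_mul, mul_one, smul_add,
        smul_smul]
      rw [hzz, one_smul, one_smul]
      abel
    set R := Ring.inverse (1 + z • P) with hR
    set K := (P + z • (1 : H →L[ℂ] H)) * R with hK
    have hRs1 : star R * (1 + (starRingEnd ℂ) z • P) = 1 := by
      rw [← hst, ← star_mul, e2, star_one]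
    have hRs2 : (1 + (starRingEnd ℂ) z • P) * star R = 1 := by
      rw [← hst, ← star_mul, e1, star_one]
    have hKK : star K * K = 1 := by
      rw [hK, star_mul, hst2]
      calc star R * (P + (starRingEnd ℂ) z • 1) * ((P + z • 1) * R)
          = star R * ((P + (starRingEnd ℂ) z • 1) * (P + z • 1)) * R := by simp only [mul_assoc]
        _ = (star R * (1 + (starRingEnd ℂ) z • P)) * ((1 + z • P) * R) := by
            rw [hkey]; simp only [mul_assoc]
        _ = 1 := by rw [hRs1, e2, mul_one]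
    have hcomm : (P + z • (1 : H →L[ℂ] H)) * R = R * (P + z • 1) := by
      have h5 : (P + z • (1 : H →L[ℂ] H)) * (1 + z • P) = (1 + z • P) * (P + z • 1) := by
        simp only [mul_add, add_mul, smul_mul_assoc, mul_smul_comm, one_mul, mul_one, smul_add]
        abel
      calc (P + z • (1 : H →L[ℂ] H)) * R = (R * (1 + z • P)) * ((P + z • 1) * R) := by
            rw [e1, one_mul]
        _ = R * ((1 + z • P) * (P + z • 1)) * R := by simp only [mul_assoc]
        _ = R * ((P + z • 1) * (1 + z • P)) * R := by rw [h5]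
        _ = R * (P + z • 1) * ((1 + z • P) * R) := by simp only [mul_assoc]
        _ = R * (P + z • 1) := by rw [e2, mul_one]
    have hKK' : K * star K = 1 := by
      have h6 : K = R * (P + z • 1) := hcomm
      rw [h6, star_mul, hst2]
      calc R * (P + z • 1) * ((P + (starRingEnd ℂ) z • 1) * star R)
          = R * ((P + z • 1) * (P + (starRingEnd ℂ) z • 1)) * star R := by simp only [mul_assoc]
        _ = (R * (1 + z • P)) * ((1 + (starRingEnd ℂ) z • P) * star R) := by
            rw [hkey2]; simp only [mul_assoc]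
        _ = 1 := by rw [e1, hRs2, mul_one]
    have hGz : G z = W * K := rfl
    rw [Unitary.mem_iff, hGz, star_mul]
    constructor
    · calc star K * star W * (W * K) = star K * (star W * W) * K := by simp only [mul_assoc]
        _ = 1 := by rw [hWW, mul_one, hKK]
    · calc W * K * (star K * star W) = W * (K * star K) * star W := by simp only [mul_assoc]
        _ = 1 := by rw [hKK', mul_one, hWW']
  -- maximum principle
  set f : ℂ → (H →L[ℂ] H) := fun z => aeval (G z) p with hf
  have hfd : ∀ z : ℂ, ‖z‖ ≤ 1 → DifferentiableAt ℂ f z := by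
    intro z hz
    have h7 : f = fun z => ∑ i ∈ Finset.range (p.natDegree + 1), p.coeff i • (G z) ^ i := by
      funext w
      exact aeval_eq_sum_range (G w)
    rw [h7]
    refine DifferentiableAt.fun_sum (fun i _ => ?_)
    have h8 : DifferentiableAt ℂ (fun z => (G z) ^ i) z := (hGd z hz).pow i
    exact h8.const_smul (p.coeff i)
  have hdc : DiffContOnCl ℂ f (ball 0 1) := by
    apply DifferentiableOn.diffContOnCl
    intro z hz
    apply (hfd z ?_).differentiableWithinAt
    rw [closure_ball _ one_ne_zero] at hz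
    simpa using hz
  have hmax := Complex.norm_le_of_forall_mem_frontier_norm_le (f := f) (C := M)
    (isBounded_ball (x := (0:ℂ)) (r := 1)) hdc ?_ (z := 0) (subset_closure (by simp))
  · simpa [hf, hG0] using hmax
  · intro z hz
    rw [frontier_ball _ one_ne_zero] at hz
    exact norm_aeval_unitary (G z) (hGu z (by simpa using hz)) p M hM hp

/-- von Neumann's inequality on a finite-dimensional Hilbert space, for a disc of radius `r`. -/
theorem vN [FiniteDimensional ℂ H] (T : H →L[ℂ] H) (r : ℝ) (hr : 0 < r) (hT : ‖T‖ ≤ r) (p : ℂ[X])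
    (M : ℝ) (hM : 0 ≤ M) (hp : ∀ z : ℂ, ‖z‖ = r → ‖p.eval z‖ ≤ M) : ‖aeval T p‖ ≤ M := by
  -- rescale to radius one
  have hscale : ∀ s : ℝ, 0 < s → aeval T p = aeval ((s⁻¹ : ℂ) • T) (p.comp (C (s : ℂ) * X)) := by
    intro s hs
    have hs' : (s : ℂ) ≠ 0 := by exact_mod_cast hs.ne'
    rw [aeval_comp]
    congr 1
    simp only [map_mul, aeval_C, aeval_X]
    rw [Algebra.algebraMap_eq_smul_one, smul_mul_assoc, one_mul, smul_smul, mul_inv_cancel₀ hs',
      one_smul]
  have hmain : ∀ (S : H →L[ℂ] H) (q : ℂ[X]), ‖S‖ ≤ 1 → (∀ z : ℂ, ‖z‖ = 1 → ‖q.eval z‖ ≤ M) →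
      ‖aeval S q‖ ≤ M := by
    intro S q hS hq
    -- invertible approximations
    have hfin : (spectrum ℂ S).Finite := by
      have := Module.End.finite_spectrum (K := ℂ) (S : H →ₗ[ℂ] H)
      refine this.subset ?_
      intro z hz
      rw [spectrum.mem_iff] at hz ⊢
      intro hu
      apply hz
      rw [ContinuousLinearMap.isUnit_iff_bijective]
      have := (Module.End.isUnit_iff _).mp hu
      exact this
    have hF : {t : ℝ | (-(t : ℂ)) ∈ spectrum ℂ S}.Finite := by
      refine Set.Finite.preimage ?_ hfin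
      intro a _ b _ hab
      exact_mod_cast neg_injective hab
    have hev : ∀ᶠ t : ℝ in nhdsWithin 0 (Set.Ioi 0), 0 < t ∧ (-(t : ℂ)) ∉ spectrum ℂ S := by
      have h1 : ({t : ℝ | (-(t : ℂ)) ∈ spectrum ℂ S} \ {0}).Finite := hF.subset Set.sdiff_subset
      have h2 : ({t : ℝ | (-(t : ℂ)) ∈ spectrum ℂ S} \ {0})ᶜ ∈ nhds (0 : ℝ) :=
        h1.isClosed.isOpen_compl.mem_nhds (by simp)
      filter_upwards [self_mem_nhdsWithin, nhdsWithin_le_nhds h2] with t ht ht2
      refine ⟨ht, fun h3 => ht2 ⟨h3, ?_⟩⟩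
      simpa using (ne_of_gt ht)
    have hcont : Filter.Tendsto
        (fun t : ℝ => aeval (((1 + 2 * t : ℝ) : ℂ)⁻¹ • (S + (t : ℂ) • (1 : H →L[ℂ] H))) q)
        (nhdsWithin 0 (Set.Ioi 0)) (nhds (aeval S q)) := by
      have h4 : ContinuousAt
          (fun t : ℝ => aeval (((1 + 2 * t : ℝ) : ℂ)⁻¹ • (S + (t : ℂ) • (1 : H →L[ℂ] H))) q) 0 := by
        have h5 : ContinuousAt
          (fun t : ℝ => (((1 + 2 * t : ℝ) : ℂ)⁻¹ • (S + (t : ℂ) • (1 : H →L[ℂ] H)))) 0 := by
          have h51 : ContinuousAt (fun t : ℝ => ((1 + 2 * t : ℝ) : ℂ)) 0 := by fun_prop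
          have h52 : ContinuousAt (fun t : ℝ => S + (t : ℂ) • (1 : H →L[ℂ] H)) 0 := by fun_prop
          exact (h51.inv₀ (by simp)).smul h52
        exact (Polynomial.continuous_aeval q).continuousAt.comp h5
      have h6 := h4.tendsto
      simp only [mul_zero, add_zero, Complex.ofReal_one, inv_one, Complex.ofReal_zero, zero_smul,
        one_smul] at h6
      exact h6.mono_left nhdsWithin_le_nhds
    refine le_of_tendsto hcont.norm ?_
    filter_upwards [hev] with t ht
    obtain ⟨ht0, hts⟩ := ht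
    have hpos : (0 : ℝ) < 1 + 2 * t := by linarith
    apply vN_aux _ _ _ q M hM hq
    · rw [norm_smul, norm_inv, Complex.norm_real, Real.norm_of_nonneg hpos.le,
        inv_mul_lt_iff₀ hpos, mul_one]
      have h7 : ‖(1 : H →L[ℂ] H)‖ ≤ 1 := ContinuousLinearMap.norm_id_le
      calc ‖S + (t : ℂ) • (1 : H →L[ℂ] H)‖ ≤ ‖S‖ + ‖(t : ℂ) • (1 : H →L[ℂ] H)‖ := norm_add_le _ _
        _ ≤ 1 + t * 1 := by
            rw [norm_smul, Complex.norm_real, Real.norm_of_nonneg ht0.le]
            gcongr
        _ < 1 + 2 * t := by linarith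
    · have h8 : IsUnit (S + (t : ℂ) • (1 : H →L[ℂ] H)) := by
        rw [spectrum.notMem_iff] at hts
        have h9 : (algebraMap ℂ (H →L[ℂ] H)) (-(t : ℂ)) - S = -(S + (t : ℂ) • 1) := by
          rw [Algebra.algebraMap_eq_smul_one, neg_smul]; abel
        rw [h9, IsUnit.neg_iff] at hts
        exact hts
      have h10 : (((1 + 2 * t : ℝ) : ℂ))⁻¹ ≠ 0 := inv_ne_zero (by exact_mod_cast hpos.ne')
      exact (isUnit_smul_iff (Units.mk0 _ h10) _).mpr h8
  rw [hscale r hr]
  apply hmain
  · rw [norm_smul, norm_inv, Complex.norm_real, Real.norm_of_nonneg hr.le]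
    rw [inv_mul_le_iff₀ hr, mul_one]; exact hT
  · intro z hz
    rw [eval_comp]
    apply hp
    simp [hz, abs_of_pos hr]

end Pool.Agent.Q169.CZ
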